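import Pool.Agent.T9h43.SA.Ram

/-!
A Bloch type estimate: a function whose image contains no disc that is large compared with the
distance of its centre from the origin has a small derivative.
-/

set_option autoImplicit false

open Complex MeasureTheory Metric Set Filter Topology ComplexConjugate

namespace Pool.Agent.T9h43.SB

/-- Bloch type estimate -/
theorem bloch {X : ℂ → ℂ} {U : Set ℂ} (hU : IsOpen U) (hX : DifferentiableOn ℂ X U) {u : ℂ}
    {s R : ℝ} (hs : 0 < s) (hR : 0 < R) (hsub : closedBall u s ⊆ U)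
    (hno : ∀ w : ℂ, ¬ ball w ((R + ‖w‖) / 240) ⊆ X '' closedBall u s) :
    s * ‖deriv X u‖ ≤ 2 / 5 * (R + ‖X u‖) := by
  have hdX : DifferentiableOn ℂ (deriv X) U := hX.deriv hU
  have hXat : ∀ z ∈ closedBall u s, DifferentiableAt ℂ X z := fun z hz =>
    hX.differentiableAt (hU.mem_nhds (hsub hz))
  have hXc : ContinuousOn X (closedBall u s) := hX.continuousOn.mono hsub
  have hdXc : ContinuousOn (deriv X) (closedBall u s) := hdX.continuousOn.mono hsub
  have hRX : ∀ z : ℂ, 0 < R + ‖X z‖ := fun z => by positivity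
  obtain ⟨M, hM⟩ : ∃ M : ℂ → ℝ, M = fun z => (s - ‖z - u‖) * ‖deriv X z‖ / (R + ‖X z‖) := ⟨_, rfl⟩
  have hMc : ContinuousOn M (closedBall u s) := by
    rw [hM]
    refine ContinuousOn.div ?_ ?_ (fun z _ => (hRX z).ne')
    · refine ContinuousOn.mul ?_ hdXc.norm
      exact (continuous_const.sub (continuous_id.sub continuous_const).norm).continuousOn
    · exact continuousOn_const.add hXc.norm
  obtain ⟨b, hb, hbm⟩ := (isCompact_closedBall u s).exists_isMaxOn
    ⟨u, mem_closedBall_self hs.le⟩ hMc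
  have hmax : ∀ z ∈ closedBall u s, M z ≤ M b := fun z hz => hbm hz
  by_contra hcon
  push Not at hcon
  have hMu : 2 / 5 < M u := by
    rw [hM]
    simp only [sub_self, norm_zero, sub_zero]
    rw [lt_div_iff₀ (hRX u)]
    exact hcon
  have hMb : 2 / 5 < M b := hMu.trans_le (hmax u (mem_closedBall_self hs.le))
  have hbn : ‖b - u‖ ≤ s := mem_closedBall_iff_norm.1 hb
  -- the derivative at `b`
  obtain ⟨t, ht⟩ : ∃ t : ℝ, t = (s - ‖b - u‖) / 2 := ⟨_, rfl⟩
  obtain ⟨μ, hμ⟩ : ∃ μ : ℝ, μ = ‖deriv X b‖ / (R + ‖X b‖) := ⟨_, rfl⟩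
  have hμ0 : 0 ≤ μ := by rw [hμ]; exact div_nonneg (norm_nonneg _) (hRX b).le
  have hMbe : M b = 2 * (t * μ) := by
    rw [hM, ht, hμ]
    simp only
    ring
  have htμ : 1 / 5 < t * μ := by linarith
  have ht0 : 0 < t := by
    rcases (mul_nonneg_iff.1 (by linarith : (0 : ℝ) ≤ t * μ)) with h | h
    · rcases h.1.eq_or_lt with h0 | h0
      · rw [← h0] at htμ
        linarith
      · exact h0
    · exfalso
      have h1 : μ = 0 := le_antisymm h.2 hμ0
      rw [h1] at htμ
      linarith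
  have hμp : 0 < μ := by
    rcases hμ0.eq_or_lt with h0 | h0
    · rw [← h0] at htμ
      linarith
    · exact h0
  have hb' : ‖deriv X b‖ = μ * (R + ‖X b‖) := by
    rw [hμ, div_mul_cancel₀ _ (hRX b).ne']
  have hdb : 0 < ‖deriv X b‖ := by
    rw [hb']
    exact mul_pos hμp (hRX b)
  have hin : ∀ z ∈ closedBall b t, z ∈ closedBall u s := by
    intro z hz
    rw [mem_closedBall_iff_norm] at hz ⊢
    have h1 : ‖z - u‖ ≤ ‖z - b‖ + ‖b - u‖ := norm_sub_le_norm_sub_add_norm_sub _ _ _
    linarith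
  have hder : ∀ z ∈ closedBall b t, ‖deriv X z‖ ≤ 2 * μ * (R + ‖X z‖) := by
    intro z hz
    have h1 := hmax z (hin z hz)
    rw [hMbe, hM] at h1
    simp only at h1
    rw [div_le_iff₀ (hRX z)] at h1
    rw [mem_closedBall_iff_norm] at hz
    have h2 : t ≤ s - ‖z - u‖ := by
      have h3 : ‖z - u‖ ≤ ‖z - b‖ + ‖b - u‖ := norm_sub_le_norm_sub_add_norm_sub _ _ _
      linarith
    have h3 : t * ‖deriv X z‖ ≤ t * (2 * μ * (R + ‖X z‖)) := by
      calc t * ‖deriv X z‖ ≤ (s - ‖z - u‖) * ‖deriv X z‖ :=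
            mul_le_mul_of_nonneg_right h2 (norm_nonneg _)
        _ ≤ 2 * (t * μ) * (R + ‖X z‖) := h1
        _ = t * (2 * μ * (R + ‖X z‖)) := by ring
    exact le_of_mul_le_mul_left h3 ht0
  obtain ⟨t1, ht1⟩ : ∃ t1 : ℝ, t1 = min t (1 / (4 * μ)) := ⟨_, rfl⟩
  have ht10 : 0 < t1 := by
    rw [ht1]
    exact lt_min ht0 (by positivity)
  have ht1t : t1 ≤ t := by rw [ht1]; exact min_le_left _ _
  have ht1μ : μ * t1 ≤ 1 / 4 := by
    have h1 : t1 ≤ 1 / (4 * μ) := by rw [ht1]; exact min_le_right _ _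
    have h2 : μ * t1 ≤ μ * (1 / (4 * μ)) := mul_le_mul_of_nonneg_left h1 hμ0
    have h3 : μ * (1 / (4 * μ)) = 1 / 4 := by field_simp
    linarith
  have hin1 : ∀ z ∈ closedBall b t1, z ∈ closedBall b t := fun z hz =>
    closedBall_subset_closedBall ht1t hz
  -- the size of the function
  have hsize : ∀ z ∈ closedBall b t1, R + ‖X z‖ ≤ 2 * (R + ‖X b‖) := by
    have hcont : ContinuousOn (fun z => R + ‖X z‖) (closedBall b t1) :=
      continuousOn_const.add ((hXc.mono fun z hz => hin z (hin1 z hz)).norm)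
    obtain ⟨z0, hz0, hz0m⟩ := (isCompact_closedBall b t1).exists_isMaxOn
      ⟨b, mem_closedBall_self ht10.le⟩ hcont
    have h1 : ∀ z ∈ closedBall b t1, R + ‖X z‖ ≤ R + ‖X z0‖ := fun z hz => hz0m hz
    have h2 : ‖X z0 - X b‖ ≤ 2 * μ * (R + ‖X z0‖) * ‖z0 - b‖ := by
      refine (convex_closedBall b t1).norm_image_sub_le_of_norm_deriv_le
        (fun z hz => hXat z (hin z (hin1 z hz))) ?_ (mem_closedBall_self ht10.le) hz0
      intro z hz
      refine (hder z (hin1 z hz)).trans ?_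
      exact mul_le_mul_of_nonneg_left (h1 z hz) (by positivity)
    have h3 : ‖z0 - b‖ ≤ t1 := mem_closedBall_iff_norm.1 hz0
    have h4 : 2 * μ * (R + ‖X z0‖) * ‖z0 - b‖ ≤ 1 / 2 * (R + ‖X z0‖) := by
      calc 2 * μ * (R + ‖X z0‖) * ‖z0 - b‖ ≤ 2 * μ * (R + ‖X z0‖) * t1 :=
            mul_le_mul_of_nonneg_left h3 (by have := hRX z0; positivity)
        _ = 2 * (μ * t1) * (R + ‖X z0‖) := by ring
        _ ≤ 2 * (1 / 4) * (R + ‖X z0‖) := by
            refine mul_le_mul_of_nonneg_right ?_ (hRX z0).le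
            linarith
        _ = 1 / 2 * (R + ‖X z0‖) := by ring
    have h5 : ‖X z0‖ ≤ ‖X z0 - X b‖ + ‖X b‖ := by
      have := norm_add_le (X z0 - X b) (X b)
      rwa [sub_add_cancel] at this
    intro z hz
    have := h1 z hz
    linarith
  have hder1 : ∀ z ∈ closedBall b t1, ‖deriv X z‖ ≤ 4 * ‖deriv X b‖ := by
    intro z hz
    refine (hder z (hin1 z hz)).trans ?_
    rw [hb']
    have := hsize z hz
    nlinarith
  -- the derivative is nearly constant
  have hschwarz : ∀ z ∈ ball b t1, ‖deriv X z - deriv X b‖ ≤ 5 * ‖deriv X b‖ / t1 * ‖z - b‖ := by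
    intro z hz
    have h1 := Complex.dist_le_div_mul_dist_of_mapsTo_ball (f := deriv X) (c := b) (z := z)
      (R₁ := t1) (R₂ := 5 * ‖deriv X b‖)
      (hdX.mono fun z hz => hsub (hin z (hin1 z (ball_subset_closedBall hz)))) ?_ hz
    · rw [dist_eq_norm, dist_eq_norm] at h1
      exact h1
    · intro z hz
      rw [mem_closedBall_iff_norm]
      have h2 := hder1 z (ball_subset_closedBall hz)
      have h3 := norm_sub_le (deriv X z) (deriv X b)
      linarith
  have hnear : ∀ z ∈ closedBall b (t1 / 12), ‖deriv X z - deriv X b‖ ≤ ‖deriv X b‖ / 2 := by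
    intro z hz
    rw [mem_closedBall_iff_norm] at hz
    have h1 := hschwarz z (by rw [mem_ball_iff_norm]; linarith)
    refine h1.trans ?_
    have h2 : 5 * ‖deriv X b‖ / t1 * ‖z - b‖ ≤ 5 * ‖deriv X b‖ / t1 * (t1 / 12) :=
      mul_le_mul_of_nonneg_left hz (by positivity)
    have h3 : 5 * ‖deriv X b‖ / t1 * (t1 / 12) = 5 / 12 * ‖deriv X b‖ := by
      field_simp
    rw [h3] at h2
    linarith
  have hin2 : ∀ z ∈ closedBall b (t1 / 12), z ∈ closedBall u s := fun z hz =>
    hin z (hin1 z (closedBall_subset_closedBall (by linarith) hz))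
  have hlow : ∀ z ∈ closedBall b (t1 / 12), ‖deriv X b‖ / 2 * ‖z - b‖ ≤ ‖X z - X b‖ := by
    intro z hz
    have h1 : ‖(X z - deriv X b * z) - (X b - deriv X b * b)‖ ≤ ‖deriv X b‖ / 2 * ‖z - b‖ := by
      refine (convex_closedBall b (t1 / 12)).norm_image_sub_le_of_norm_hasDerivWithin_le
        (f := fun z => X z - deriv X b * z) (f' := fun z => deriv X z - deriv X b) ?_ ?_
        (mem_closedBall_self (by positivity)) hz
      · intro z hz
        have h2 := (hXat z (hin2 z hz)).hasDerivAt.sub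
          ((hasDerivAt_id z).const_mul (deriv X b))
        simp only [id, mul_one] at h2
        exact h2.hasDerivWithinAt
      · exact hnear
    have h2 : deriv X b * (z - b) = (X z - X b) -
        ((X z - deriv X b * z) - (X b - deriv X b * b)) := by ring
    have h3 : ‖deriv X b * (z - b)‖ ≤ ‖X z - X b‖ +
        ‖(X z - deriv X b * z) - (X b - deriv X b * b)‖ := by
      rw [h2]
      exact norm_sub_le _ _
    rw [norm_mul] at h3
    linarith
  have ht12 : 0 < t1 / 12 := by positivity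
  have hball := DiffContOnCl.ball_subset_image_closedBall (f := X) (z₀ := b) (r := t1 / 12)
    (ε := ‖deriv X b‖ * t1 / 24) ⟨(hX.mono fun z hz => hsub (hin2 z (ball_subset_closedBall hz))),
      by
        rw [closure_ball _ ht12.ne']
        exact hXc.mono fun z hz => hin2 z hz⟩ ht12 ?_ ?_
  · refine hno (X b) ?_
    refine Subset.trans ?_ (hball.trans (image_mono fun z hz => hin2 z hz))
    refine ball_subset_ball ?_
    rcases min_choice t (1 / (4 * μ)) with h | h
    · have h1 : t1 = t := ht1.trans h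
      rw [h1, hb']
      have h2 : 1 / 5 * (R + ‖X b‖) ≤ t * μ * (R + ‖X b‖) :=
        mul_le_mul_of_nonneg_right htμ.le (hRX b).le
      calc (R + ‖X b‖) / 240 = 1 / 5 * (R + ‖X b‖) / 48 := by ring
        _ ≤ t * μ * (R + ‖X b‖) / 48 := by linarith
        _ = μ * (R + ‖X b‖) * t / 24 / 2 := by ring
    · have h1 : t1 = 1 / (4 * μ) := ht1.trans h
      have h2 : μ * (R + ‖X b‖) * (1 / (4 * μ)) = (R + ‖X b‖) / 4 := by field_simp
      rw [h1, hb', h2]
      have := hRX b
      linarith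
  · intro z hz
    have hz' : z ∈ closedBall b (t1 / 12) := sphere_subset_closedBall hz
    have h1 := hlow z hz'
    rw [mem_sphere_iff_norm] at hz
    rw [hz] at h1
    have h2 : ‖deriv X b‖ / 2 * (t1 / 12) = ‖deriv X b‖ * t1 / 24 := by ring
    rw [← h2]
    exact h1
  · have h1 : ∀ᶠ z in 𝓝[≠] b, X z ≠ X b := by
      have h2 : ∀ᶠ z in 𝓝[≠] b, z ∈ closedBall b (t1 / 12) :=
        nhdsWithin_le_nhds (closedBall_mem_nhds b ht12)
      filter_upwards [h2, self_mem_nhdsWithin] with z hz hzb h3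
      have h4 := hlow z hz
      rw [h3, sub_self, norm_zero] at h4
      have h5 : 0 < ‖z - b‖ := norm_pos_iff.2 (sub_ne_zero.2 hzb)
      have h6 : 0 < ‖deriv X b‖ / 2 * ‖z - b‖ := by positivity
      linarith
    exact (h1.frequently).filter_mono nhdsWithin_le_nhds

end Pool.Agent.T9h43.SB
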