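import Mathlib

/-!
Systems of functions one of which dominates somewhere in every large disc: exponential polynomials.
-/

set_option autoImplicit false

open Complex Metric Set Filter Topology ComplexConjugate
open scoped Polynomial

namespace Pool.Agent.T9h43.SB

/-- in every large disc one of the functions dominates the others somewhere -/
def Unb {ι : Type} (J : Finset ι) (f : ι → ℂ → ℂ) : Prop :=
  ∀ M : ℕ, ∃ ρ : ℝ, ∀ (w : ℂ) (r : ℝ), ρ ≤ r → ‖w‖ ≤ 240 * r →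
    ∃ x ∈ ball w r, ∃ j ∈ J, f j x ≠ 0 ∧ ∀ k ∈ J, k ≠ j → r ^ M * ‖f k x‖ ≤ ‖f j x‖

theorem fin_pos {α : Type} (L : Finset α) (g : α → ℝ) (h : ∀ p ∈ L, 0 < g p) :
    ∃ κ : ℝ, 0 < κ ∧ ∀ p ∈ L, κ ≤ g p := by
  rcases L.eq_empty_or_nonempty with h0 | h0
  · refine ⟨1, one_pos, fun p hp => ?_⟩
    rw [h0] at hp
    exact absurd hp (Finset.notMem_empty p)
  · obtain ⟨p, hp, hmin⟩ := L.exists_min_image g h0
    exact ⟨g p, h p hp, hmin⟩

/-- divided differences -/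
theorem divided {q : ℂ[X]} {w v : ℂ} {S : Finset ℕ} {t : ℕ → ℝ} {m : ℕ} {T M : ℝ} (hT : 0 < T)
    (hv : v ≠ 0) (hq : q.natDegree = m) (hS : S.card = m + 1)
    (ht : ∀ i ∈ S, ∀ j ∈ S, i ≠ j → T ≤ |t i - t j|)
    (hM : ∀ i ∈ S, |(q.eval (w + t i * v)).re| ≤ M) :
    |(q.leadingCoeff * v ^ m).re| * T ^ m ≤ (m + 1) * M := by
  obtain ⟨ℓ, hℓ⟩ : ∃ ℓ : ℂ[X], ℓ = Polynomial.C w + Polynomial.C v * Polynomial.X := ⟨_, rfl⟩
  have hℓd : ℓ.natDegree = 1 := by
    rw [hℓ, add_comm]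
    exact Polynomial.natDegree_linear hv
  have hℓl : ℓ.leadingCoeff = v := by
    rw [hℓ, add_comm]
    exact Polynomial.leadingCoeff_linear hv
  have hinj : Set.InjOn (fun i : ℕ => (t i : ℂ)) S := by
    intro i hi j hj hij
    by_contra hne
    have h1 := ht i hi j hj hne
    have h2 : t i = t j := Complex.ofReal_injective hij
    rw [h2, sub_self, abs_zero] at h1
    linarith
  have hdeg : (q.comp ℓ).degree < (S.card : WithBot ℕ) := by
    refine lt_of_le_of_lt Polynomial.degree_le_natDegree ?_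
    rw [Polynomial.natDegree_comp, hℓd, hq, mul_one, hS]
    exact_mod_cast Nat.lt_succ_self m
  have h1 := Lagrange.coeff_eq_sum hinj hdeg
  have h2 : S.card - 1 = q.natDegree * ℓ.natDegree := by rw [hS, hℓd, hq]; omega
  rw [h2, Polynomial.coeff_comp_degree_mul_degree (by rw [hℓd]; exact one_ne_zero), hℓl, hq] at h1
  rw [h1, Complex.re_sum]
  have h3 : ∀ i ∈ S, |((q.comp ℓ).eval (t i : ℂ) /
      ∏ j ∈ S.erase i, ((t i : ℂ) - (t j : ℂ))).re| * T ^ m ≤ M := by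
    intro i hi
    have e1 : (q.comp ℓ).eval (t i : ℂ) = q.eval (w + t i * v) := by
      rw [Polynomial.eval_comp, hℓ, Polynomial.eval_add, Polynomial.eval_C, Polynomial.eval_mul,
        Polynomial.eval_C, Polynomial.eval_X, mul_comm v]
    have e2 : ∏ j ∈ S.erase i, ((t i : ℂ) - (t j : ℂ)) =
        ((∏ j ∈ S.erase i, (t i - t j) : ℝ) : ℂ) := by
      push_cast
      rfl
    rw [e1, e2, Complex.div_ofReal_re, abs_div]
    have e3 : T ^ m ≤ |∏ j ∈ S.erase i, (t i - t j)| := by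
      rw [Finset.abs_prod]
      have e4 : (S.erase i).card = m := by
        rw [Finset.card_erase_of_mem hi, hS]
        omega
      calc T ^ m = ∏ _j ∈ S.erase i, T := by rw [Finset.prod_const, e4]
        _ ≤ _ := Finset.prod_le_prod (fun _ _ => hT.le) (fun j hj =>
            ht i hi j (Finset.mem_of_mem_erase hj) (Finset.ne_of_mem_erase hj).symm)
    have e5 : 0 < |∏ j ∈ S.erase i, (t i - t j)| := lt_of_lt_of_le (pow_pos hT m) e3
    have e6 := hM i hi
    rw [div_mul_eq_mul_div, div_le_iff₀ e5]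
    exact mul_le_mul e6 e3 (pow_pos hT m).le ((abs_nonneg _).trans e6)
  calc |∑ i ∈ S, ((q.comp ℓ).eval (t i : ℂ) /
        ∏ j ∈ S.erase i, ((t i : ℂ) - (t j : ℂ))).re| * T ^ m
      ≤ (∑ i ∈ S, |((q.comp ℓ).eval (t i : ℂ) /
        ∏ j ∈ S.erase i, ((t i : ℂ) - (t j : ℂ))).re|) * T ^ m :=
        mul_le_mul_of_nonneg_right (Finset.abs_sum_le_sum_abs _ _) (pow_pos hT m).le
    _ = ∑ i ∈ S, |((q.comp ℓ).eval (t i : ℂ) /
        ∏ j ∈ S.erase i, ((t i : ℂ) - (t j : ℂ))).re| * T ^ m := Finset.sum_mul _ _ _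
    _ ≤ ∑ _i ∈ S, M := Finset.sum_le_sum h3
    _ = (m + 1) * M := by
        rw [Finset.sum_const, hS, nsmul_eq_mul]
        push_cast
        ring

/-- a direction -/
theorem direction {α : Type} (L : Finset α) (l : α → ℂ) (m : α → ℕ) (hl : ∀ p ∈ L, l p ≠ 0)
    (hm : ∀ p ∈ L, m p ≠ 0) : ∃ τ : ℝ, ∀ p ∈ L, (l p * (1 + τ * I) ^ m p).re ≠ 0 := by
  obtain ⟨P, hP⟩ : ∃ P : α → ℂ[X], P = fun p =>
      Polynomial.C (l p) * (1 + Polynomial.C I * Polynomial.X) ^ m p +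
      Polynomial.C (conj (l p)) * (1 - Polynomial.C I * Polynomial.X) ^ m p := ⟨_, rfl⟩
  have hne : ∏ p ∈ L, P p ≠ 0 := by
    rw [Finset.prod_ne_zero_iff]
    intro p hp h0
    have h1 : (P p).eval I = 0 := by rw [h0, Polynomial.eval_zero]
    rw [hP] at h1
    simp only [Polynomial.eval_add, Polynomial.eval_mul, Polynomial.eval_pow, Polynomial.eval_C,
      Polynomial.eval_one, Polynomial.eval_X, Polynomial.eval_sub, Complex.I_mul_I] at h1
    rw [add_neg_cancel, zero_pow (hm p hp), mul_zero, zero_add] at h1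
    rcases mul_eq_zero.1 h1 with h2 | h2
    · exact hl p hp ((map_eq_zero _).1 h2)
    · have h3 := pow_eq_zero_iff (hm p hp) |>.1 h2
      norm_num at h3
  by_contra hcon
  push Not at hcon
  apply hne
  refine Polynomial.eq_zero_of_infinite_isRoot _ ?_
  have h1 : Set.Infinite (Set.range (fun τ : ℝ => (τ : ℂ))) :=
    Set.infinite_range_of_injective Complex.ofReal_injective
  refine h1.mono ?_
  rintro _ ⟨τ, rfl⟩
  obtain ⟨p, hp, h2⟩ := hcon τ
  show Polynomial.IsRoot _ _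
  rw [Polynomial.IsRoot.def, Polynomial.eval_prod]
  refine Finset.prod_eq_zero hp ?_
  rw [hP]
  simp only [Polynomial.eval_add, Polynomial.eval_mul, Polynomial.eval_pow, Polynomial.eval_C,
    Polynomial.eval_one, Polynomial.eval_X, Polynomial.eval_sub]
  have h3 : conj (l p) * (1 - I * (τ : ℂ)) ^ m p = conj (l p * (1 + I * (τ : ℂ)) ^ m p) := by
    rw [map_mul, map_pow, map_add, map_mul, map_one, Complex.conj_I, Complex.conj_ofReal]
    congr 2
    ring
  rw [h3, Complex.add_conj]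
  rw [mul_comm (τ : ℂ) I] at h2
  rw [h2]
  simp

/-- lower bound for a polynomial -/
theorem poly_low {p : ℂ[X]} (hp : p ≠ 0) :
    ∃ κ r0 : ℝ, 0 < κ ∧ ∀ x : ℂ, r0 ≤ ‖x‖ → κ ≤ ‖p.eval x‖ := by
  rcases Nat.eq_zero_or_pos p.natDegree with h0 | h0
  · rw [Polynomial.eq_C_of_natDegree_eq_zero h0] at hp ⊢
    refine ⟨‖p.coeff 0‖, 0, ?_, fun x _ => ?_⟩
    · rw [norm_pos_iff]
      intro h1
      apply hp
      rw [h1, Polynomial.C_0]
    · rw [Polynomial.eval_C]
  · have h1 := p.tendsto_norm_atTop (Polynomial.natDegree_pos_iff_degree_pos.1 h0)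
      (tendsto_norm_cocompact_atTop (E := ℂ))
    have h2 := h1.eventually_ge_atTop 1
    rw [← Metric.cobounded_eq_cocompact, hasBasis_cobounded_norm.eventually_iff] at h2
    obtain ⟨r0, -, h3⟩ := h2
    exact ⟨1, r0, one_pos, fun x hx => h3 hx⟩

/-- upper bound for a polynomial -/
theorem poly_up (p : ℂ[X]) {ρ : ℝ} (hρ : 1 ≤ ρ) {x : ℂ} (hx : ‖x‖ ≤ ρ) :
    ‖p.eval x‖ ≤ (∑ i ∈ Finset.range (p.natDegree + 1), ‖p.coeff i‖) * ρ ^ p.natDegree := by
  rw [Polynomial.eval_eq_sum_range, Finset.sum_mul]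
  refine (norm_sum_le _ _).trans (Finset.sum_le_sum fun i hi => ?_)
  rw [norm_mul, norm_pow]
  refine mul_le_mul_of_nonneg_left ?_ (norm_nonneg _)
  rw [Finset.mem_range] at hi
  exact (pow_le_pow_left₀ (norm_nonneg _) hx i).trans (pow_le_pow_right₀ hρ (by omega))

/-- exponential polynomials -/
theorem expo_unb {ι : Type} [DecidableEq ι] {J : Finset ι} (hJ : J.Nonempty) {p q : ι → ℂ[X]}
    (hp : ∀ j ∈ J, p j ≠ 0)
    (hq : ∀ j ∈ J, ∀ k ∈ J, j ≠ k → (q j - q k).natDegree ≠ 0) :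
    Unb J (fun j x => (p j).eval x * exp ((q j).eval x)) := by
  intro M
  -- the pairs
  obtain ⟨L, hL⟩ : ∃ L : Finset (ι × ι), L = (J ×ˢ J).filter (fun e => e.1 ≠ e.2) := ⟨_, rfl⟩
  have hLm : ∀ e : ι × ι, e ∈ L ↔ e.1 ∈ J ∧ e.2 ∈ J ∧ e.1 ≠ e.2 := by
    intro e
    rw [hL, Finset.mem_filter, Finset.mem_product, and_assoc]
  obtain ⟨l, hl⟩ : ∃ l : ι × ι → ℂ, l = fun e => (q e.1 - q e.2).leadingCoeff := ⟨_, rfl⟩
  obtain ⟨m, hm⟩ : ∃ m : ι × ι → ℕ, m = fun e => (q e.1 - q e.2).natDegree := ⟨_, rfl⟩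
  have hm0 : ∀ e ∈ L, m e ≠ 0 := by
    intro e he
    obtain ⟨h1, h2, h3⟩ := (hLm e).1 he
    rw [hm]
    exact hq _ h1 _ h2 h3
  have hl0 : ∀ e ∈ L, l e ≠ 0 := by
    intro e he h0
    rw [hl] at h0
    have h1 := hm0 e he
    rw [hm] at h1
    apply h1
    simp only at h0 ⊢
    rw [Polynomial.leadingCoeff_eq_zero.1 h0, Polynomial.natDegree_zero]
  obtain ⟨τ, hτ⟩ := direction L l m hl0 hm0
  obtain ⟨v0, hv0⟩ : ∃ v0 : ℂ, v0 = 1 + τ * I := ⟨_, rfl⟩
  rw [← hv0] at hτ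
  have hv0n : v0 ≠ 0 := by
    intro h0
    have h1 := congrArg Complex.re h0
    rw [hv0] at h1
    simp at h1
  obtain ⟨κ0, hκ0, hκ⟩ := fin_pos L (fun e => |(l e * v0 ^ m e).re|)
    (fun e he => abs_pos.2 (hτ e he))
  obtain ⟨D, hD⟩ : ∃ D : ℕ, D = L.sup m := ⟨_, rfl⟩
  have hmD : ∀ e ∈ L, m e ≤ D := fun e he => by rw [hD]; exact Finset.le_sup he
  -- the polynomial factors
  choose! κ1 r1 hκ1 hlow using fun j (hj : j ∈ J) => poly_low (hp j hj)
  obtain ⟨κ2, hκ2, hκ2'⟩ := fin_pos J κ1 hκ1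
  obtain ⟨r2, hr2⟩ : ∃ r2 : ℝ, r2 = ∑ j ∈ J, |r1 j| := ⟨_, rfl⟩
  have hr2' : ∀ j ∈ J, r1 j ≤ r2 := by
    intro j hj
    rw [hr2]
    exact (le_abs_self _).trans (Finset.single_le_sum (f := fun j => |r1 j|)
      (fun i _ => abs_nonneg _) hj)
  obtain ⟨C, hC⟩ : ∃ C : ℝ, C = 1 + ∑ j ∈ J, ∑ i ∈ Finset.range ((p j).natDegree + 1),
    ‖(p j).coeff i‖ := ⟨_, rfl⟩
  have hCj : ∀ j ∈ J, ∑ i ∈ Finset.range ((p j).natDegree + 1), ‖(p j).coeff i‖ ≤ C := by
    intro j hj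
    have := Finset.single_le_sum (f := fun j => ∑ i ∈ Finset.range ((p j).natDegree + 1),
      ‖(p j).coeff i‖) (fun i _ => Finset.sum_nonneg fun k _ => norm_nonneg _) hj
    rw [hC]
    linarith
  have hC1 : 1 ≤ C := by
    rw [hC]
    have : 0 ≤ ∑ j ∈ J, ∑ i ∈ Finset.range ((p j).natDegree + 1), ‖(p j).coeff i‖ :=
      Finset.sum_nonneg fun j _ => Finset.sum_nonneg fun k _ => norm_nonneg _
    linarith
  obtain ⟨E, hE⟩ : ∃ E : ℕ, E = J.sup (fun j => (p j).natDegree) := ⟨_, rfl⟩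
  have hEj : ∀ j ∈ J, (p j).natDegree ≤ E := fun j hj => by
    rw [hE]
    exact Finset.le_sup (f := fun j => (p j).natDegree) hj
  -- constants
  obtain ⟨N, hN⟩ : ∃ N : ℕ, N = L.card * D + 1 := ⟨_, rfl⟩
  obtain ⟨V, hV⟩ : ∃ V : ℝ, V = ‖v0‖ := ⟨_, rfl⟩
  have hVp : 0 < V := by rw [hV]; exact norm_pos_iff.2 hv0n
  have hV1 : 1 ≤ V := by
    have h1 := Complex.abs_re_le_norm v0
    have h2 : v0.re = 1 := by rw [hv0]; simp
    rw [h2, abs_one] at h1
    rw [hV]
    exact h1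
  obtain ⟨C2, hC2⟩ : ∃ C2 : ℝ, C2 = C * 241 ^ E / κ2 + 1 := ⟨_, rfl⟩
  have hC2p : 0 < C2 := by rw [hC2]; positivity
  have hev : ∀ᶠ r : ℝ in atTop, (D + 1 : ℝ) * (Real.log C2 + ((M + E : ℕ) : ℝ) * Real.log r) <
      κ0 * (r / ((N + 1 : ℝ) * V)) ∧ 1 ≤ r / ((N + 1 : ℝ) * V) ∧ r2 ≤ r / ((N + 1 : ℝ) * V) ∧
      1 ≤ r := by
    obtain ⟨ε, hε⟩ : ∃ ε : ℝ, ε = κ0 / ((N + 1 : ℝ) * V) / (4 * ((D + 1 : ℝ) *
      (((M + E : ℕ) : ℝ) + 1))) := ⟨_, rfl⟩
    have hεp : 0 < ε := by rw [hε]; positivity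
    have h1 := Real.isLittleO_log_id_atTop.bound hεp
    have h2 : Tendsto (fun r : ℝ => r / ((N + 1 : ℝ) * V)) atTop atTop :=
      tendsto_id.atTop_div_const (by positivity)
    have h3 : Tendsto (fun r : ℝ => κ0 * (r / ((N + 1 : ℝ) * V))) atTop atTop :=
      h2.const_mul_atTop hκ0
    filter_upwards [h1, h2.eventually_ge_atTop 1, h2.eventually_ge_atTop r2,
      h3.eventually_gt_atTop (2 * ((D + 1 : ℝ) * Real.log C2)), eventually_ge_atTop (1 : ℝ)]
      with r h4 h5 h6 h7 h8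
    refine ⟨?_, h5, h6, h8⟩
    have h9 : Real.log r ≤ ε * r := by
      rw [Real.norm_eq_abs, Real.norm_eq_abs, id, abs_of_nonneg (by linarith : (0 : ℝ) ≤ r)] at h4
      exact (le_abs_self _).trans h4
    have h10 : (D + 1 : ℝ) * (((M + E : ℕ) : ℝ) * Real.log r) ≤
        κ0 * (r / ((N + 1 : ℝ) * V)) / 4 := by
      have h11 : (D + 1 : ℝ) * (((M + E : ℕ) : ℝ) * Real.log r) ≤
          (D + 1 : ℝ) * ((((M + E : ℕ) : ℝ) + 1) * (ε * r)) := by
        refine mul_le_mul_of_nonneg_left ?_ (by positivity)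
        have hlr : 0 ≤ Real.log r := Real.log_nonneg h8
        exact mul_le_mul (by linarith) h9 hlr (by positivity)
      refine h11.trans (le_of_eq ?_)
      rw [hε]
      field_simp
    have h12 : 0 < κ0 * (r / ((N + 1 : ℝ) * V)) := by positivity
    have h13 : (D + 1 : ℝ) * (Real.log C2 + ((M + E : ℕ) : ℝ) * Real.log r) =
        (D + 1 : ℝ) * Real.log C2 + (D + 1 : ℝ) * (((M + E : ℕ) : ℝ) * Real.log r) := by ring
    rw [h13]
    linarith
  obtain ⟨ρ, hρ⟩ := eventually_atTop.1 hev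
  refine ⟨ρ, fun w r hr hw => ?_⟩
  obtain ⟨hr3, hr4, hr5, hr6⟩ := hρ r hr
  obtain ⟨T, hT⟩ : ∃ T : ℝ, T = r / ((N + 1 : ℝ) * V) := ⟨_, rfl⟩
  rw [← hT] at hr3 hr4 hr5
  have hTp : 0 < T := by linarith
  have hr0 : 0 < r := by linarith
  -- the sign
  obtain ⟨σ, hσ, hσw⟩ : ∃ σ : ℝ, |σ| = 1 ∧ 0 ≤ σ * (w * conj v0).re := by
    rcases le_total 0 (w * conj v0).re with h | h
    · exact ⟨1, abs_one, by linarith⟩
    · exact ⟨-1, by norm_num, by linarith⟩
  obtain ⟨t, ht⟩ : ∃ t : ℕ → ℝ, t = fun i : ℕ => σ * ((i : ℝ) + 1) * T := ⟨_, rfl⟩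
  have htd : ∀ i j : ℕ, i ≠ j → T ≤ |t i - t j| := by
    intro i j hij
    have h1 : t i - t j = σ * (((i : ℝ) - j) * T) := by rw [ht]; ring
    rw [h1, abs_mul, hσ, one_mul, abs_mul, abs_of_pos hTp]
    have h2 : (1 : ℝ) ≤ |(i : ℝ) - j| := by
      have h3 : ((i : ℤ) - j) ≠ 0 := by omega
      have h4 := Int.one_le_abs h3
      have h5 : ((1 : ℤ) : ℝ) ≤ ((|(i : ℤ) - j| : ℤ) : ℝ) := by exact_mod_cast h4
      rw [Int.cast_abs] at h5
      push_cast at h5
      exact h5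
    nlinarith
  have hta : ∀ i : ℕ, |t i| = ((i : ℝ) + 1) * T := by
    intro i
    rw [ht]
    simp only
    rw [abs_mul, abs_mul, hσ, one_mul, abs_of_pos hTp, abs_of_pos (by positivity)]
  obtain ⟨x, hx⟩ : ∃ x : ℕ → ℂ, x = fun i => w + t i * v0 := ⟨_, rfl⟩
  have hxb : ∀ i < N, x i ∈ ball w r := by
    intro i hi
    rw [mem_ball_iff_norm, hx]
    simp only
    rw [add_sub_cancel_left, norm_mul, Complex.norm_real, Real.norm_eq_abs, hta, ← hV]
    have h1 : ((i : ℝ) + 1) ≤ N := by exact_mod_cast hi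
    have h2 : ((N : ℝ) + 1) * T * V = r := by
      rw [hT]
      field_simp
    have h3 : 0 < T * V := mul_pos hTp hVp
    nlinarith
  have hxl : ∀ i : ℕ, T ≤ ‖x i‖ := by
    intro i
    have h1 : (t i * V) ^ 2 ≤ ‖x i‖ ^ 2 := by
      rw [hx, ← Complex.normSq_eq_norm_sq, Complex.normSq_add, map_mul (starRingEnd ℂ),
        Complex.conj_ofReal, Complex.normSq_mul, Complex.normSq_ofReal,
        Complex.normSq_eq_norm_sq v0, ← hV]
      have h2 : w * ((t i : ℂ) * conj v0) = ((t i : ℝ) : ℂ) * (w * conj v0) := by ring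
      rw [h2, Complex.re_ofReal_mul]
      have h3 : 0 ≤ t i * (w * conj v0).re := by
        have h4 : t i * (w * conj v0).re = (((i : ℝ) + 1) * T) * (σ * (w * conj v0).re) := by
          rw [ht]; ring
        rw [h4]
        positivity
      have h5 := Complex.normSq_nonneg w
      nlinarith
    have h2 : |t i| * V ≤ ‖x i‖ := by
      have h3 := abs_le_of_sq_le_sq h1 (norm_nonneg _)
      rwa [abs_mul, abs_of_pos hVp] at h3
    rw [hta] at h2
    have h3 : T ≤ ((i : ℝ) + 1) * T * V := by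
      have h4 : (1 : ℝ) ≤ (i : ℝ) + 1 := by
        have : (0 : ℝ) ≤ i := Nat.cast_nonneg i
        linarith
      have h5 : T * 1 ≤ ((i : ℝ) + 1) * T * V := by
        have h6 : T ≤ ((i : ℝ) + 1) * T := by nlinarith
        exact mul_le_mul h6 hV1 zero_le_one (by positivity)
      linarith
    exact h3.trans h2
  by_contra hcon
  push Not at hcon
  -- a pair for every point
  have hpair : ∀ i ∈ Finset.range N, ∃ e ∈ L,
      |((q e.1 - q e.2).eval (x i)).re| ≤ Real.log C2 + ((M + E : ℕ) : ℝ) * Real.log r := by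
    intro i hi
    rw [Finset.mem_range] at hi
    obtain ⟨j0, hj0, hmax⟩ := J.exists_max_image (fun j => ((q j).eval (x i)).re) hJ
    have hxr : ‖x i‖ ≤ 241 * r := by
      have h1 := hxb i hi
      rw [mem_ball_iff_norm] at h1
      have h2 := norm_add_le (x i - w) w
      rw [sub_add_cancel] at h2
      linarith
    have hplow : ∀ j ∈ J, κ2 ≤ ‖(p j).eval (x i)‖ := fun j hj =>
      (hκ2' j hj).trans (hlow j hj _ (((hr2' j hj).trans hr5).trans (hxl i)))
    have hpup : ∀ j ∈ J, ‖(p j).eval (x i)‖ ≤ C * (241 * r) ^ E := by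
      intro j hj
      refine (poly_up (p j) (by linarith : (1 : ℝ) ≤ 241 * r) hxr).trans ?_
      exact mul_le_mul (hCj j hj) (pow_le_pow_right₀ (by linarith) (hEj j hj)) (by positivity)
        (by linarith)
    have hne : (p j0).eval (x i) * exp ((q j0).eval (x i)) ≠ 0 := by
      refine mul_ne_zero ?_ (exp_ne_zero _)
      rw [← norm_pos_iff]
      exact hκ2.trans_le (hplow j0 hj0)
    obtain ⟨k, hk, hkj, hlt⟩ := hcon (x i) (hxb i hi) j0 hj0 hne
    refine ⟨(j0, k), (hLm _).2 ⟨hj0, hk, fun h => hkj h.symm⟩, ?_⟩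
    simp only [Polynomial.eval_sub, Complex.sub_re]
    rw [abs_of_nonneg (sub_nonneg.2 (hmax k hk))]
    rw [norm_mul, norm_mul, Complex.norm_exp, Complex.norm_exp] at hlt
    have h1 : κ2 * Real.exp ((q j0).eval (x i)).re <
        r ^ M * (C * (241 * r) ^ E * Real.exp ((q k).eval (x i)).re) := by
      calc κ2 * Real.exp ((q j0).eval (x i)).re
          ≤ ‖(p j0).eval (x i)‖ * Real.exp ((q j0).eval (x i)).re :=
            mul_le_mul_of_nonneg_right (hplow j0 hj0) (Real.exp_pos _).le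
        _ < r ^ M * (‖(p k).eval (x i)‖ * Real.exp ((q k).eval (x i)).re) := hlt
        _ ≤ _ := by
            refine mul_le_mul_of_nonneg_left ?_ (by positivity)
            exact mul_le_mul_of_nonneg_right (hpup k hk) (Real.exp_pos _).le
    have h2 : Real.exp (((q j0).eval (x i)).re - ((q k).eval (x i)).re) < C2 * r ^ (M + E) := by
      rw [Real.exp_sub, div_lt_iff₀ (Real.exp_pos _)]
      have h3 : Real.exp ((q j0).eval (x i)).re <
          (C * 241 ^ E / κ2) * r ^ (M + E) * Real.exp ((q k).eval (x i)).re := by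
        rw [mul_comm κ2, ← lt_div_iff₀ hκ2] at h1
        refine h1.trans_le (le_of_eq ?_)
        rw [pow_add, mul_pow]
        field_simp
      refine h3.trans_le ?_
      refine mul_le_mul_of_nonneg_right ?_ (Real.exp_pos _).le
      refine mul_le_mul_of_nonneg_right ?_ (by positivity)
      rw [hC2]
      linarith
    have h3 := Real.log_lt_log (Real.exp_pos _) h2
    rw [Real.log_exp, Real.log_mul hC2p.ne' (by positivity), Real.log_pow] at h3
    exact h3.le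
  have : Nonempty ι := ⟨hJ.choose⟩
  choose! e he heb using hpair
  have hcard : L.card * D < (Finset.range N).card := by
    rw [Finset.card_range, hN]
    omega
  obtain ⟨e0, he0, hfib⟩ := Finset.exists_lt_card_fiber_of_mul_lt_card_of_maps_to he hcard
  obtain ⟨S, hSsub, hScard⟩ := Finset.exists_subset_card_eq
    (show m e0 + 1 ≤ _ from lt_of_le_of_lt (hmD e0 he0) hfib)
  have hSm : ∀ i ∈ S, i ∈ Finset.range N ∧ e i = e0 := by
    intro i hi
    have := hSsub hi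
    rw [Finset.mem_filter] at this
    exact this
  have hdiv := divided (q := q e0.1 - q e0.2) (w := w) (v := v0) (S := S) (t := t) (m := m e0)
    (T := T) (M := Real.log C2 + ((M + E : ℕ) : ℝ) * Real.log r) hTp hv0n (by rw [hm]) hScard
    (fun i _ j _ hij => htd i j hij) (by
      intro i hi
      obtain ⟨h1, h2⟩ := hSm i hi
      have h3 := heb i h1
      rw [h2, hx] at h3
      exact h3)
  have h1 := hκ e0 he0
  simp only [hl] at h1
  have h2 : T ≤ T ^ m e0 := le_self_pow₀ hr4 (hm0 e0 he0)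
  have h3 : κ0 * T ≤ (m e0 + 1) * (Real.log C2 + ((M + E : ℕ) : ℝ) * Real.log r) :=
    (mul_le_mul h1 h2 hTp.le (abs_nonneg _)).trans hdiv
  have h4 : 0 < Real.log C2 + ((M + E : ℕ) : ℝ) * Real.log r := by
    have h5 : 0 < κ0 * T := mul_pos hκ0 hTp
    have h6 : (0 : ℝ) < (m e0 : ℝ) + 1 := by positivity
    by_contra h7
    have h8 := mul_nonpos_of_nonneg_of_nonpos h6.le (not_lt.1 h7)
    linarith
  have h5 : ((m e0 : ℝ) + 1) * (Real.log C2 + ((M + E : ℕ) : ℝ) * Real.log r) ≤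
      (D + 1 : ℝ) * (Real.log C2 + ((M + E : ℕ) : ℝ) * Real.log r) := by
    refine mul_le_mul_of_nonneg_right ?_ h4.le
    have : (m e0 : ℝ) ≤ D := by exact_mod_cast hmD e0 he0
    linarith
  linarith

end Pool.Agent.T9h43.SB
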