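import Pool.Agent.T9h43.SB.Grow

/-!
Conclusion for a class of germs with poor images.
-/

set_option autoImplicit false

open Complex MeasureTheory Metric Set Filter Topology ComplexConjugate
open Pool.Agent.Y245.SC Pool.Agent.Y245.UC
open Pool.Agent.TH298.Sch (Sol)
open Pool.Agent.T9h43.SA

namespace Pool.Agent.T9h43.SB

/-- the Schwarz function is holomorphic in an annulus -/
theorem rf_diff {φ : ℂ → ℂ} {r : ℝ} (hr : 1 < r) (hφ : DifferentiableOn ℂ φ (ball 0 r)) :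
    DifferentiableOn ℂ (Rf φ) {u : ℂ | r⁻¹ < ‖u‖} := by
  have hr0 : 0 < r := by linarith
  intro v hv
  have hv' : r⁻¹ < ‖v‖ := hv
  have hvp : 0 < ‖v‖ := (inv_pos.2 hr0).trans hv'
  have hv0 : v ≠ 0 := norm_pos_iff.1 hvp
  apply DifferentiableAt.differentiableWithinAt
  have h2 : DifferentiableAt ℂ (conj ∘ φ ∘ conj) (v⁻¹) := by
    rw [differentiableAt_conj_conj_iff]
    refine hφ.differentiableAt (isOpen_ball.mem_nhds ?_)
    rw [mem_ball_zero_iff, RCLike.norm_conj, norm_inv]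
    exact inv_lt_of_inv_lt₀ hr0 hv'
  have h3 : Rf φ = (conj ∘ φ ∘ conj) ∘ (fun v : ℂ => v⁻¹) := by
    funext v
    simp only [Rf, Function.comp_apply, map_inv₀, one_div]
  rw [h3]
  exact h2.comp v (differentiableAt_inv hv0)

/-- the Schwarz function of a domain with a solution satisfies the Volterra equation -/
theorem adm_rf {φ : ℂ → ℂ} {r lam c : ℝ} {u : ℂ → ℝ} {G0 : ℂ → ℂ} (hr : 1 < r)
    (hφ : DifferentiableOn ℂ φ (ball 0 r)) (hinj : InjOn φ (ball 0 r)) (hlam : 0 < lam)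
    (hc : c ≠ 0) (hS : Sol (φ '' ball 0 1) lam c u G0) {v : ℂ} (hv1 : r⁻¹ < ‖v‖)
    (hv2 : ‖v‖ < 1) : Adm φ (lam / 4) A0 0 v (Rf φ) := by
  have hr0 : 0 < r := by linarith
  have hvp : 0 < ‖v‖ := (inv_pos.2 hr0).trans hv1
  have hv0 : v ≠ 0 := norm_pos_iff.1 hvp
  have hnorm : ‖1 / conj v‖ = ‖v‖⁻¹ := by
    rw [norm_div, norm_one, RCLike.norm_conj, one_div]
  have hz1 : 1 < ‖1 / conj v‖ := by
    rw [hnorm]
    exact (one_lt_inv₀ hvp).2 hv2
  have hz2 : ‖1 / conj v‖ < r := by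
    rw [hnorm]
    exact inv_lt_of_inv_lt₀ hr0 hv1
  obtain ⟨-, h1, h2⟩ := branch_inv Pool.Agent.Y987.UC.ustart Pool.Agent.Y845.UC.ustep
    Pool.Agent.Y641.UC.uconn Pool.Agent.Y500.UC.urel Pool.Agent.Y500.UC.urefl φ r lam c u G0 hr hφ
    hinj hlam hc hS (1 / conj v) φ (Branch.base _ hz1 hz2)
  have hinv : 1 / conj (1 / conj v) = v := by
    rw [map_div₀, map_one, Complex.conj_conj, one_div_one_div]
  rw [hinv] at h1 h2
  exact ⟨h1, h2, Eventually.of_forall fun w => A0_rel _ _⟩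

/-- no solution when the continuations of the Schwarz function have poor images everywhere -/
theorem final_abs {φ : ℂ → ℂ} {r lam c : ℝ} {u : ℂ → ℝ} {G0 : ℂ → ℂ} (hr : 1 < r)
    (hφ : DifferentiableOn ℂ φ (ball 0 r)) (hinj : InjOn φ (ball 0 r)) (hlam : 0 < lam)
    (hc : c ≠ 0) (hS : Sol (φ '' ball 0 1) lam c u G0) {T : ℂ → (ℂ → ℂ) → Prop}
    (hTc : ∀ (u : ℂ) (X Y : ℂ → ℂ), T u X → X =ᶠ[𝓝 u] Y → T u Y)
    (hTm : ∀ (V : Set ℂ) (X : ℂ → ℂ) (u u' : ℂ), IsOpen V → IsPreconnected V → V ⊆ ball 0 1 →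
      DifferentiableOn ℂ X V → u ∈ V → u' ∈ V → T u X → T u' X)
    {s : ℝ} (hs1 : s < 1) (hsr : r⁻¹ ≤ s) (hTs : ∀ v : ℂ, s < ‖v‖ → ‖v‖ < 1 → T v (Rf φ))
    (hpoor : ∀ P ∈ ball (0 : ℂ) 1, Poor T P) : False := by
  have hr0 : 0 < r := by linarith
  have hs0 : 0 < s := (inv_pos.2 hr0).trans_le hsr
  have ha : 0 < lam / 4 := by positivity
  have hφ1 : DifferentiableOn ℂ φ (ball 0 1) := hφ.mono (ball_subset_ball hr.le)
  have hFd := rf_diff hr hφ
  have hAdm : ∀ v : ℂ, s < ‖v‖ → ‖v‖ < 1 → Adm φ (lam / 4) A0 0 v (Rf φ) :=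
    fun v hv1 hv2 => adm_rf hr hφ hinj hlam hc hS (hsr.trans_lt hv1) hv2
  obtain ⟨t0, ht0, ht1⟩ : ∃ t0 : ℝ, s < t0 ∧ t0 < 1 := exists_between hs1
  obtain ⟨p0, hp0⟩ : ∃ p0 : ℂ, p0 = (t0 : ℂ) := ⟨_, rfl⟩
  have hp0n : ‖p0‖ = t0 := by
    rw [hp0, Complex.norm_real, Real.norm_of_nonneg (hs0.trans ht0).le]
  have hp0s : p0 ∈ {u : ℂ | s < ‖u‖ ∧ ‖u‖ < 1} := ⟨by rw [hp0n]; exact ht0, by
    rw [hp0n]; exact ht1⟩
  -- both properties spread
  have hspread : ∀ (R : ℝ) (G : ℂ → ℂ), 0 ≤ R → R ≤ s →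
      DifferentiableOn ℂ G {u : ℂ | R < ‖u‖ ∧ ‖u‖ < 1} →
      EqOn G (Rf φ) {u : ℂ | s < ‖u‖ ∧ ‖u‖ < 1} → ∀ v : ℂ, R < ‖v‖ → ‖v‖ < 1 →
      Adm φ (lam / 4) A0 0 v G ∧ T v G := by
    intro R G hR0 hRs hG hGF v hv1 hv2
    have hgerm : Rf φ =ᶠ[𝓝 p0] G := by
      filter_upwards [(annulus_open s 1).mem_nhds hp0s] with v hv
      exact (hGF hv).symm
    refine ⟨?_, ?_⟩
    · exact ((hAdm p0 hp0s.1 hp0s.2).congr ha hφ1 hgerm).move ha hφ1 (fun k _ => A0_diff k _)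
        (annulus_open R 1) (annulus_pre hR0) (fun v hv => mem_ball_zero_iff.2 hv.2) hG
        ⟨hRs.trans_lt hp0s.1, hp0s.2⟩ ⟨hv1, hv2⟩
    · exact hTm _ G p0 v (annulus_open R 1) (annulus_pre hR0)
        (fun v hv => mem_ball_zero_iff.2 hv.2) hG ⟨hRs.trans_lt hp0s.1, hp0s.2⟩ ⟨hv1, hv2⟩
        (hTc p0 _ _ (hTs p0 hp0s.1 hp0s.2) hgerm)
  -- the extension to the punctured disc
  have hext : ∃ G : ℂ → ℂ, DifferentiableOn ℂ G {u : ℂ | 0 < ‖u‖ ∧ ‖u‖ < 1} ∧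
      EqOn G (Rf φ) {u : ℂ | s < ‖u‖ ∧ ‖u‖ < 1} := by
    refine annulus_ext hs0 hs1 (hFd.mono fun v hv => hsr.trans_lt hv.1) ?_
    intro R hR0 hRs G hG hGF P hP
    have hR1 : R < 1 := hRs.trans_lt hs1
    obtain ⟨ρ, hρ⟩ : ∃ ρ : ℝ, ρ = (1 - R) / 4 := ⟨_, rfl⟩
    have hρ0 : 0 < ρ := by rw [hρ]; linarith
    obtain ⟨c', hc'⟩ : ∃ c' : ℂ, c' = P * ((1 + ρ / R : ℝ) : ℂ) := ⟨_, rfl⟩
    have hcn : ‖c'‖ = R + ρ := by
      rw [hc', norm_mul, hP, Complex.norm_real, Real.norm_of_nonneg (by positivity)]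
      field_simp
    have hPc : P ∈ sphere c' ρ := by
      rw [mem_sphere_iff_norm]
      have : P - c' = P * ((-(ρ / R) : ℝ) : ℂ) := by
        rw [hc']
        push_cast
        ring
      rw [this, norm_mul, hP, Complex.norm_real, Real.norm_eq_abs, abs_neg,
        abs_of_pos (by positivity)]
      field_simp
    have hcb : closedBall c' ρ ⊆ ball 0 1 := by
      intro v hv
      rw [mem_closedBall_iff_norm] at hv
      rw [mem_ball_zero_iff]
      have := norm_add_le (v - c') c'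
      rw [sub_add_cancel, hcn] at this
      linarith
    have hsub : ball c' ρ ⊆ {u : ℂ | R < ‖u‖ ∧ ‖u‖ < 1} := by
      intro v hv
      refine ⟨?_, mem_ball_zero_iff.1 (hcb (ball_subset_closedBall hv))⟩
      rw [mem_ball_iff_norm] at hv
      have := norm_sub_norm_le c' (c' - v)
      rw [sub_sub_cancel, norm_sub_rev c' v, hcn] at this
      linarith
    have hcm : c' ∈ ball c' ρ := mem_ball_self hρ0
    have hsp := hspread R G hR0.le hRs hG hGF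
    refine locExt_annulus hR0 hR1 hρ0 hP hc' hG ?_
    exact locExt_poor ha hφ1 (T := T) hρ0 hcb (hG.mono hsub) hcm
      ((hsp c' (hsub hcm).1 (hsub hcm).2).1.vg 0) (fun z hz => (hsp z (hsub hz).1 (hsub hz).2).2)
      hPc (hpoor P (hcb (sphere_subset_closedBall hPc)))
  obtain ⟨G, hG, hGF⟩ := hext
  have hsp := hspread 0 G le_rfl hs0.le hG hGF
  -- the centre
  obtain ⟨c', hc'⟩ : ∃ c' : ℂ, c' = ((1 / 4 : ℝ) : ℂ) := ⟨_, rfl⟩
  have hcn : ‖c'‖ = 1 / 4 := by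
    rw [hc', Complex.norm_real, Real.norm_of_nonneg (by norm_num)]
  have h0c : (0 : ℂ) ∈ sphere c' (1 / 4) := by
    rw [mem_sphere_iff_norm, zero_sub, norm_neg, hcn]
  have hcb : closedBall c' (1 / 4) ⊆ ball (0 : ℂ) 1 := by
    intro v hv
    rw [mem_closedBall_iff_norm] at hv
    rw [mem_ball_zero_iff]
    have := norm_add_le (v - c') c'
    rw [sub_add_cancel, hcn] at this
    linarith
  have hsub : ball c' (1 / 4) ⊆ {u : ℂ | 0 < ‖u‖ ∧ ‖u‖ < 1} := by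
    intro v hv
    refine ⟨?_, mem_ball_zero_iff.1 (hcb (ball_subset_closedBall hv))⟩
    rw [mem_ball_iff_norm] at hv
    have := norm_sub_norm_le c' (c' - v)
    rw [sub_sub_cancel, norm_sub_rev c' v, hcn] at this
    linarith
  have hcm : c' ∈ ball c' (1 / 4) := mem_ball_self (by norm_num)
  obtain ⟨ε0, E, hε0, hE, hEG⟩ := locExt_poor ha hφ1 (T := T) (by norm_num) hcb (hG.mono hsub) hcm
    ((hsp c' (hsub hcm).1 (hsub hcm).2).1.vg 0) (fun z hz => (hsp z (hsub hz).1 (hsub hz).2).2)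
    h0c (hpoor 0 (mem_ball_self one_pos))
  obtain ⟨ε, hε⟩ : ∃ ε : ℝ, ε = min ε0 s := ⟨_, rfl⟩
  have hεp : 0 < ε := by rw [hε]; exact lt_min hε0 hs0
  have hεs : ε ≤ s := by rw [hε]; exact min_le_right _ _
  have hεε : ε ≤ ε0 := by rw [hε]; exact min_le_left _ _
  have hagree : EqOn E G {u : ℂ | 0 < ‖u‖ ∧ ‖u‖ < ε} := by
    obtain ⟨q, hq⟩ : ∃ q : ℂ, q = ((ε / 4 : ℝ) : ℂ) := ⟨_, rfl⟩
    have hqn : ‖q‖ = ε / 4 := by
      rw [hq, Complex.norm_real, Real.norm_of_nonneg (by positivity)]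
    have hqc : q ∈ ball c' (1 / 4) := by
      rw [mem_ball_iff_norm, hq, hc', ← Complex.ofReal_sub, Complex.norm_real, Real.norm_eq_abs,
        abs_lt]
      constructor <;> linarith
    have hqb : q ∈ ball (0 : ℂ) ε0 := by
      rw [mem_ball_zero_iff, hqn]
      linarith
    refine eq_on (annulus_open 0 ε) (annulus_pre2 le_rfl)
      (hE.mono fun v hv => mem_ball_zero_iff.2 (hv.2.trans_le hεε))
      (hG.mono fun v hv => ⟨hv.1, by linarith [hv.2]⟩) (z := q)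
      ⟨by rw [hqn]; positivity, by rw [hqn]; linarith⟩ ?_
    filter_upwards [(isOpen_ball.inter isOpen_ball).mem_nhds ⟨hqb, hqc⟩] with v hv
    exact hEG v hv
  obtain ⟨H, hH⟩ : ∃ H : ℂ → ℂ, H = fun v => if ‖v‖ < ε then E v else G v := ⟨_, rfl⟩
  have hHE : ∀ v ∈ ball (0 : ℂ) ε, H v = E v := by
    intro v hv
    rw [hH]
    simp only
    rw [if_pos (mem_ball_zero_iff.1 hv)]
  have hHG : ∀ v : ℂ, 0 < ‖v‖ → H v = G v := by
    intro v hv
    by_cases h1 : ‖v‖ < ε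
    · rw [hHE v (mem_ball_zero_iff.2 h1)]
      exact hagree ⟨hv, h1⟩
    · rw [hH]
      simp only
      rw [if_neg h1]
  have hHd : DifferentiableOn ℂ H (ball 0 1) := by
    intro v hv
    apply DifferentiableAt.differentiableWithinAt
    by_cases h1 : v = 0
    · rw [h1]
      have h2 : DifferentiableAt ℂ E 0 := hE.differentiableAt (ball_mem_nhds 0 hε0)
      refine h2.congr_of_eventuallyEq ?_
      filter_upwards [ball_mem_nhds (0 : ℂ) hεp] with w hw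
      exact hHE w hw
    · have h2 : 0 < ‖v‖ := norm_pos_iff.2 h1
      have h3 : DifferentiableAt ℂ G v := hG.differentiableAt
        ((annulus_open 0 1).mem_nhds ⟨h2, mem_ball_zero_iff.1 hv⟩)
      refine h3.congr_of_eventuallyEq ?_
      filter_upwards [(isOpen_lt continuous_const continuous_norm).mem_nhds h2] with w hw
      exact hHG w hw
  refine no_ext hr hφ hinj hs0 hs1 hsr (hFd.mono fun v hv => hv.1) hHd ?_
  intro v hv1 hv2
  rw [hHG v (hs0.trans hv1)]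
  exact hGF ⟨hv1, hv2⟩

end Pool.Agent.T9h43.SB
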