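import Pool.Agent.T9h43.SB.Bloch

/-!
Growth along the radii of a disc and the local extension.
-/

set_option autoImplicit false

open Complex MeasureTheory Metric Set Filter Topology ComplexConjugate
open Pool.Agent.Y245.SC Pool.Agent.Y245.UC
open Pool.Agent.T9h43.SA

namespace Pool.Agent.T9h43.SB

/-- growth along a radius -/
theorem growth {X : ℂ → ℂ} {c : ℂ} {ρ : ℝ} (hρ : 0 < ρ) (hX : DifferentiableOn ℂ X (ball c ρ))
    {R : ℝ → ℝ} (hRa : ∀ s t : ℝ, 0 < s → s ≤ t → R t ≤ R s)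
    (hR0 : ∀ s : ℝ, 0 < s → 0 ≤ R s)
    (hb : ∀ u ∈ ball c ρ, (ρ - ‖u - c‖) * ‖deriv X u‖ ≤ 4 / 5 * (R (ρ - ‖u - c‖) + ‖X u‖)) :
    ∀ u ∈ ball c ρ, ‖X u‖ ≤ (‖X c‖ + R (ρ - ‖u - c‖)) * (ρ / (ρ - ‖u - c‖)) ^ (4 / 5 : ℝ) := by
  intro u hu
  rw [mem_ball_iff_norm] at hu
  obtain ⟨δ, hδ⟩ : ∃ δ : ℝ, δ = ρ - ‖u - c‖ := ⟨_, rfl⟩
  have hδ0 : 0 < δ := by rw [hδ]; linarith
  have hδρ : δ ≤ ρ := by rw [hδ]; linarith [norm_nonneg (u - c)]
  rw [← hδ]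
  obtain ⟨S, hS⟩ : ∃ S : ℝ, S = Real.log (ρ / δ) := ⟨_, rfl⟩
  have hq : 0 < ρ / δ := by positivity
  have hS0 : 0 ≤ S := by
    rw [hS]
    exact Real.log_nonneg ((one_le_div hδ0).2 hδρ)
  have hSe : ρ * Real.exp (-S) = δ := by
    rw [Real.exp_neg, hS, Real.exp_log hq]
    field_simp
  obtain ⟨e, he⟩ : ∃ e : ℂ, e = (u - c) / (‖u - c‖ : ℂ) := ⟨_, rfl⟩
  have he1 : ‖e‖ ≤ 1 := by
    rw [he, norm_div, Complex.norm_real, norm_norm]
    exact div_self_le_one _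
  have hue : (‖u - c‖ : ℂ) * e = u - c := by
    rw [he]
    by_cases h0 : u - c = 0
    · rw [h0]
      simp
    · have : (‖u - c‖ : ℂ) ≠ 0 := by
        rw [Complex.ofReal_ne_zero]
        exact norm_ne_zero_iff.2 h0
      field_simp
  obtain ⟨y, hy⟩ : ∃ y : ℝ → ℂ, y = fun s => c + ((ρ * (1 - Real.exp (-s)) : ℝ) : ℂ) * e :=
    ⟨_, rfl⟩
  have hyn : ∀ s : ℝ, 0 ≤ s → ‖y s - c‖ ≤ ρ * (1 - Real.exp (-s)) := by
    intro s hs
    have h1 : Real.exp (-s) ≤ 1 := Real.exp_le_one_iff.2 (by linarith)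
    have h2 : 0 ≤ ρ * (1 - Real.exp (-s)) := mul_nonneg hρ.le (by linarith)
    rw [hy]
    simp only
    rw [add_sub_cancel_left, norm_mul, Complex.norm_real, Real.norm_of_nonneg h2]
    exact mul_le_of_le_one_right h2 he1
  have hyb : ∀ s : ℝ, 0 ≤ s → y s ∈ ball c ρ := by
    intro s hs
    rw [mem_ball_iff_norm]
    have h1 := hyn s hs
    have h2 : 0 < ρ * Real.exp (-s) := by positivity
    linarith
  have hyd : ∀ s : ℝ, HasDerivAt y (((ρ * Real.exp (-s) : ℝ) : ℂ) * e) s := by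
    intro s
    rw [hy]
    have h1 : HasDerivAt (fun s : ℝ => ρ * (1 - Real.exp (-s))) (ρ * Real.exp (-s)) s := by
      have h2 : HasDerivAt (fun s : ℝ => Real.exp (-s)) (-Real.exp (-s)) s := by
        have := (Real.hasDerivAt_exp (-s)).comp s (hasDerivAt_neg s)
        convert! this using 1
        ring
      have h3 := (h2.const_sub 1).const_mul ρ
      convert! h3 using 1
      ring
    exact (h1.ofReal_comp.mul_const e).const_add c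
  have hyS : y S = u := by
    rw [hy]
    simp only
    have h1 : ρ * (1 - Real.exp (-S)) = ‖u - c‖ := by
      rw [mul_sub, hSe, hδ]
      ring
    rw [h1, hue]
    ring
  have hy0 : y 0 = c := by
    rw [hy]
    simp
  have hXat : ∀ s : ℝ, 0 ≤ s → HasDerivAt (fun s => X (y s))
      (deriv X (y s) * (((ρ * Real.exp (-s) : ℝ) : ℂ) * e)) s := by
    intro s hs
    have h1 : HasDerivAt X (deriv X (y s)) (y s) :=
      (hX.differentiableAt (isOpen_ball.mem_nhds (hyb s hs))).hasDerivAt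
    exact h1.comp_of_eq s (hyd s) rfl
  have hRδ : 0 ≤ R δ := hR0 δ hδ0
  have hg := norm_le_gronwallBound_of_norm_deriv_right_le (f := fun s => X (y s))
    (f' := fun s => deriv X (y s) * (((ρ * Real.exp (-s) : ℝ) : ℂ) * e)) (δ := ‖X c‖)
    (K := 4 / 5) (ε := 4 / 5 * R δ) (a := 0) (b := S)
    (fun s hs => (hXat s hs.1).continuousAt.continuousWithinAt)
    (fun s hs => (hXat s hs.1).hasDerivWithinAt) (by rw [hy0]) (by
      intro s hs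
      have h1 : 0 < ρ * Real.exp (-s) := by positivity
      have h2 := hyn s hs.1
      have h3 : ρ * Real.exp (-s) ≤ ρ - ‖y s - c‖ := by linarith
      have h4 : δ ≤ ρ * Real.exp (-s) := by
        rw [← hSe]
        refine mul_le_mul_of_nonneg_left (Real.exp_le_exp.2 ?_) hρ.le
        linarith [hs.2]
      have h5 := hb (y s) (hyb s hs.1)
      have h6 : R (ρ - ‖y s - c‖) ≤ R δ := hRa _ _ hδ0 (h4.trans h3)
      rw [norm_mul, norm_mul, Complex.norm_real, Real.norm_of_nonneg h1.le]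
      calc ‖deriv X (y s)‖ * (ρ * Real.exp (-s) * ‖e‖)
          ≤ ‖deriv X (y s)‖ * (ρ * Real.exp (-s) * 1) := by
            refine mul_le_mul_of_nonneg_left ?_ (norm_nonneg _)
            exact mul_le_mul_of_nonneg_left he1 h1.le
        _ = (ρ * Real.exp (-s)) * ‖deriv X (y s)‖ := by ring
        _ ≤ (ρ - ‖y s - c‖) * ‖deriv X (y s)‖ := mul_le_mul_of_nonneg_right h3 (norm_nonneg _)
        _ ≤ 4 / 5 * (R (ρ - ‖y s - c‖) + ‖X (y s)‖) := h5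
        _ ≤ 4 / 5 * ‖X (y s)‖ + 4 / 5 * R δ := by linarith) S ⟨hS0, le_rfl⟩
  rw [sub_zero] at hg
  simp only [hyS] at hg
  rw [gronwallBound_of_K_ne_0 (by norm_num)] at hg
  have hpow : (ρ / δ) ^ (4 / 5 : ℝ) = Real.exp (4 / 5 * S) := by
    rw [Real.rpow_def_of_pos hq, hS]
    congr 1
    ring
  rw [hpow]
  refine hg.trans ?_
  have h7 : (4 : ℝ) / 5 * R δ / (4 / 5) = R δ := by field_simp
  rw [h7]
  nlinarith [Real.exp_pos (4 / 5 * S)]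

/-- small growth -/
theorem growth_small {X : ℂ → ℂ} {c : ℂ} {ρ K : ℝ} (hρ : 0 < ρ) (hK : 0 < K)
    (hX : DifferentiableOn ℂ X (ball c ρ))
    (hb : ∀ u ∈ ball c ρ, (ρ - ‖u - c‖) * ‖deriv X u‖ ≤
      4 / 5 * (K * (ρ - ‖u - c‖) ^ (-(1 / 10) : ℝ) + ‖X u‖)) {η : ℝ} (hη : 0 < η) :
    ∃ δ1 : ℝ, 0 < δ1 ∧ ∀ u ∈ ball c ρ, ρ - ‖u - c‖ < δ1 → (ρ - ‖u - c‖) * ‖X u‖ ≤ η := by
  have hgr := growth hρ hX (R := fun s => K * s ^ (-(1 / 10) : ℝ)) (by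
    intro s t hs hst
    refine mul_le_mul_of_nonneg_left ?_ hK.le
    exact Real.rpow_le_rpow_of_nonpos hs hst (by norm_num)) (by
    intro s hs
    positivity) hb
  have hlim : Tendsto (fun δ : ℝ => ρ ^ (4 / 5 : ℝ) * (‖X c‖ * δ ^ (1 / 5 : ℝ) +
      K * δ ^ (1 / 10 : ℝ))) (𝓝[>] 0) (𝓝 0) := by
    have h1 : ContinuousAt (fun δ : ℝ => ρ ^ (4 / 5 : ℝ) * (‖X c‖ * δ ^ (1 / 5 : ℝ) +
      K * δ ^ (1 / 10 : ℝ))) 0 := by
      refine ContinuousAt.mul continuousAt_const (ContinuousAt.add ?_ ?_)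
      · exact continuousAt_const.mul (Real.continuousAt_rpow_const 0 _ (Or.inr (by norm_num)))
      · exact continuousAt_const.mul (Real.continuousAt_rpow_const 0 _ (Or.inr (by norm_num)))
    have h2 := h1.tendsto
    rw [Real.zero_rpow (by norm_num), Real.zero_rpow (by norm_num)] at h2
    simp only [mul_zero, add_zero] at h2
    exact h2.mono_left nhdsWithin_le_nhds
  have h1 := hlim.eventually_lt_const hη
  rw [eventually_nhdsWithin_iff] at h1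
  obtain ⟨δ1, hδ1, h2⟩ := Metric.eventually_nhds_iff.1 h1
  refine ⟨δ1, hδ1, fun u hu hlt => ?_⟩
  have h3 := hgr u hu
  rw [mem_ball_iff_norm] at hu
  obtain ⟨δ, hδ⟩ : ∃ δ : ℝ, δ = ρ - ‖u - c‖ := ⟨_, rfl⟩
  have hδ0 : 0 < δ := by rw [hδ]; linarith
  rw [← hδ] at h3 hlt ⊢
  have h4 := h2 (by rw [dist_zero_right, Real.norm_eq_abs, abs_of_pos hδ0]; exact hlt) hδ0
  refine le_trans ?_ h4.le
  calc δ * ‖X u‖ ≤ δ * ((‖X c‖ + K * δ ^ (-(1 / 10) : ℝ)) * (ρ / δ) ^ (4 / 5 : ℝ)) :=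
        mul_le_mul_of_nonneg_left h3 hδ0.le
    _ = ρ ^ (4 / 5 : ℝ) * (‖X c‖ * δ ^ (1 / 5 : ℝ) + K * δ ^ (1 / 10 : ℝ)) := by
        rw [Real.div_rpow hρ.le hδ0.le]
        have e1 : δ ^ (1 / 5 : ℝ) = δ / δ ^ (4 / 5 : ℝ) := by
          rw [eq_div_iff (Real.rpow_pos_of_pos hδ0 _).ne', ← Real.rpow_add hδ0]
          norm_num
        have e2 : δ ^ (1 / 10 : ℝ) = δ * δ ^ (-(1 / 10) : ℝ) / δ ^ (4 / 5 : ℝ) := by
          rw [eq_div_iff (Real.rpow_pos_of_pos hδ0 _).ne', ← Real.rpow_add hδ0]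
          nth_rewrite 2 [← Real.rpow_one δ]
          rw [← Real.rpow_add hδ0]
          norm_num
        rw [e1, e2]
        ring

/-- the germs satisfying `T` near `P` have poor images -/
def Poor (T : ℂ → (ℂ → ℂ) → Prop) (P : ℂ) : Prop :=
  ∃ δ0 K : ℝ, 0 < δ0 ∧ 0 < K ∧ ∀ (v : ℂ) (s : ℝ) (X : ℂ → ℂ), 0 < s → 2 * s ≤ ‖v - P‖ →
    closedBall v s ⊆ ball P δ0 → (∀ z ∈ closedBall v s, T z X) →
    ∀ w : ℂ, ¬ ball w ((K * s ^ (-(1 / 10) : ℝ) + ‖w‖) / 240) ⊆ X '' closedBall v s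

/-- from a tangent disc to the larger disc -/
theorem locExt_shrink {c c1 P : ℂ} {ρ ρ1 : ℝ} (hρ1 : 0 < ρ1)
    (hsub : ball c1 ρ1 ⊆ ball c ρ) (hP : P ∈ sphere c1 ρ1) {X : ℂ → ℂ}
    (hX : DifferentiableOn ℂ X (ball c ρ)) (h : LocExt (ball c1 ρ1) X P) :
    LocExt (ball c ρ) X P := by
  obtain ⟨ε, E, hε, hE, hEg⟩ := h
  refine ⟨ε, E, hε, hE, ?_⟩
  have hconv : IsPreconnected (ball P ε ∩ ball c ρ) :=
    ((convex_ball P ε).inter (convex_ball c ρ)).isPreconnected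
  have hopen : IsOpen (ball P ε ∩ ball c ρ) := isOpen_ball.inter isOpen_ball
  obtain ⟨q, hq1, hq2⟩ : ∃ q : ℂ, q ∈ ball P ε ∧ q ∈ ball c1 ρ1 := by
    have h1 : P ∈ closure (ball c1 ρ1) := by
      rw [closure_ball _ hρ1.ne']
      exact sphere_subset_closedBall hP
    obtain ⟨q, hq⟩ := mem_closure_iff_nhds.1 h1 (ball P ε) (ball_mem_nhds P hε)
    exact ⟨q, hq.1, hq.2⟩
  refine eq_on hopen hconv (hE.mono inter_subset_left) (hX.mono inter_subset_right)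
    ⟨hq1, hsub hq2⟩ ?_
  filter_upwards [(isOpen_ball.inter isOpen_ball).mem_nhds ⟨hq1, hq2⟩] with w hw
  exact hEg w hw

/-- extension at a poor point -/
theorem locExt_poor {φ : ℂ → ℂ} {a : ℝ} (ha : 0 < a) (hφ : DifferentiableOn ℂ φ (ball 0 1))
    {T : ℂ → (ℂ → ℂ) → Prop} {c p P : ℂ} {ρ : ℝ} (hρ : 0 < ρ) (hcb : closedBall c ρ ⊆ ball 0 1)
    {X : ℂ → ℂ} (hX : DifferentiableOn ℂ X (ball c ρ)) (hp : p ∈ ball c ρ)
    (hVG : VG a φ 0 p X) (hT : ∀ z ∈ ball c ρ, T z X) (hPs : P ∈ sphere c ρ) (hP : Poor T P) :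
    LocExt (ball c ρ) X P := by
  obtain ⟨δ0, K, hδ0, hK, hpoor⟩ := hP
  have hPs' : ‖P - c‖ = ρ := mem_sphere_iff_norm.1 hPs
  obtain ⟨t, ht⟩ : ∃ t : ℝ, t = min 1 (δ0 / (2 * ρ)) := ⟨_, rfl⟩
  have ht0 : 0 < t := by
    rw [ht]
    exact lt_min one_pos (by positivity)
  have ht1 : t ≤ 1 := by rw [ht]; exact min_le_left _ _
  have ht2 : 2 * (t * ρ) ≤ δ0 := by
    have h1 : t ≤ δ0 / (2 * ρ) := by rw [ht]; exact min_le_right _ _
    have h2 : t * (2 * ρ) ≤ δ0 := (le_div_iff₀ (by positivity)).1 h1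
    linarith
  obtain ⟨c1, hc1⟩ : ∃ c1 : ℂ, c1 = P + (t : ℂ) * (c - P) := ⟨_, rfl⟩
  obtain ⟨ρ1, hρ1e⟩ : ∃ ρ1 : ℝ, ρ1 = t * ρ := ⟨_, rfl⟩
  have hcw : ‖c1 - P‖ = ρ1 := by
    rw [hc1, add_sub_cancel_left, norm_mul, Complex.norm_real, Real.norm_of_nonneg ht0.le,
      norm_sub_rev, hPs', hρ1e]
  have hcc : ‖c1 - c‖ = ρ - ρ1 := by
    have : c1 - c = ((1 - t : ℝ) : ℂ) * (P - c) := by
      rw [hc1]
      push_cast
      ring
    rw [this, norm_mul, Complex.norm_real, Real.norm_of_nonneg (by linarith), hPs', hρ1e]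
    ring
  have hρ1 : 0 < ρ1 := by rw [hρ1e]; exact mul_pos ht0 hρ
  have hsub : ball c1 ρ1 ⊆ ball c ρ := by
    intro w hw
    rw [mem_ball_iff_norm] at hw ⊢
    have h1 : ‖w - c‖ ≤ ‖w - c1‖ + ‖c1 - c‖ := norm_sub_le_norm_sub_add_norm_sub _ _ _
    rw [hcc] at h1
    linarith
  have hsubc : closedBall c1 ρ1 ⊆ closedBall c ρ := by
    intro w hw
    rw [mem_closedBall_iff_norm] at hw ⊢
    have h1 : ‖w - c‖ ≤ ‖w - c1‖ + ‖c1 - c‖ := norm_sub_le_norm_sub_add_norm_sub _ _ _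
    rw [hcc] at h1
    linarith
  have hnear : ball c1 ρ1 ⊆ ball P δ0 := by
    intro w hw
    rw [mem_ball_iff_norm] at hw ⊢
    have h1 : ‖w - P‖ ≤ ‖w - c1‖ + ‖c1 - P‖ := norm_sub_le_norm_sub_add_norm_sub _ _ _
    rw [hcw] at h1
    rw [← hρ1e] at ht2
    linarith
  have hc1b : c1 ∈ ball c1 ρ1 := mem_ball_self hρ1
  have hPs1 : P ∈ sphere c1 ρ1 := by
    rw [mem_sphere_iff_norm, norm_sub_rev]
    exact hcw
  have hVG1 : VG a φ 0 c1 X := (conn' ha hφ 0).1 (ball c ρ) X p c1 isOpen_ball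
    (convex_ball c ρ).isPreconnected (ball_subset_closedBall.trans hcb) hX hp (hsub hc1b) hVG
  have hdist : ∀ u ∈ ball c1 ρ1, ρ1 - ‖u - c1‖ ≤ ‖u - P‖ := by
    intro u _
    have h3 : ‖P - c1‖ ≤ ‖P - u‖ + ‖u - c1‖ := norm_sub_le_norm_sub_add_norm_sub _ _ _
    rw [mem_sphere_iff_norm.1 hPs1, norm_sub_rev P u] at h3
    linarith
  -- the derivative
  obtain ⟨K', hK'⟩ : ∃ K' : ℝ, K' = K * (1 / 2 : ℝ) ^ (-(1 / 10) : ℝ) := ⟨_, rfl⟩
  have hK'0 : 0 < K' := by rw [hK']; positivity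
  have hder : ∀ u ∈ ball c1 ρ1, (ρ1 - ‖u - c1‖) * ‖deriv X u‖ ≤
      4 / 5 * (K' * (ρ1 - ‖u - c1‖) ^ (-(1 / 10) : ℝ) + ‖X u‖) := by
    intro u hu
    have hu' := hu
    rw [mem_ball_iff_norm] at hu'
    obtain ⟨s, hs⟩ : ∃ s : ℝ, s = (ρ1 - ‖u - c1‖) / 2 := ⟨_, rfl⟩
    have hs0 : 0 < s := by rw [hs]; linarith
    have hcs : closedBall u s ⊆ ball c1 ρ1 := by
      intro w hw
      rw [mem_closedBall_iff_norm] at hw
      rw [mem_ball_iff_norm]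
      have h1 : ‖w - c1‖ ≤ ‖w - u‖ + ‖u - c1‖ := norm_sub_le_norm_sub_add_norm_sub _ _ _
      linarith
    have h1 := bloch (U := ball c ρ) isOpen_ball hX hs0
      (R := K * s ^ (-(1 / 10) : ℝ)) (by positivity) (hcs.trans hsub)
      (hpoor u s X hs0 (by have := hdist u hu; linarith) (hcs.trans hnear)
        (fun z hz => hT z (hsub (hcs hz))))
    have h2 : s ^ (-(1 / 10) : ℝ) = (1 / 2 : ℝ) ^ (-(1 / 10) : ℝ) *
        (ρ1 - ‖u - c1‖) ^ (-(1 / 10) : ℝ) := by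
      rw [← Real.mul_rpow (by norm_num) (by linarith), hs]
      congr 1
      ring
    rw [h2, ← mul_assoc, ← hK'] at h1
    have h3 : ρ1 - ‖u - c1‖ = 2 * s := by rw [hs]; ring
    calc (ρ1 - ‖u - c1‖) * ‖deriv X u‖ = 2 * (s * ‖deriv X u‖) := by rw [h3]; ring
      _ ≤ 2 * (2 / 5 * (K' * (ρ1 - ‖u - c1‖) ^ (-(1 / 10) : ℝ) + ‖X u‖)) := by linarith
      _ = _ := by ring
  obtain ⟨η, hη⟩ : ∃ η : ℝ, η = 1 / (2 * (a * ‖deriv φ P‖ + 1)) := ⟨_, rfl⟩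
  have hη0 : 0 < η := by rw [hη]; positivity
  have hsm : a * ‖deriv φ P‖ * η < 3 / 4 := by
    have h1 : a * ‖deriv φ P‖ * η ≤ 1 / 2 := by
      rw [hη, mul_one_div, div_le_iff₀ (by positivity)]
      linarith
    linarith
  obtain ⟨δ1, hδ1, hsmall⟩ := growth_small hρ1 hK'0 (hX.mono hsub) hder hη0
  refine locExt_shrink hρ1 hsub hPs1 hX ?_
  refine locExt_of_growth ha hφ hρ1 hη0.le hδ1 (hsubc.trans hcb) (hX.mono hsub) hsm ?_ hc1b hVG1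
    hPs1
  intro v hv hvP
  exact hsmall v hv ((hdist v hv).trans_lt hvP)

end Pool.Agent.T9h43.SB
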