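import Pool.Agent.T9h43.SB.Rel

/-!
Domination on a lattice.
-/

set_option autoImplicit false

open Complex MeasureTheory Metric Set Filter Topology ComplexConjugate
open Pool.Agent.Y245.SC Pool.Agent.Y245.UC
open Pool.Agent.TH298.Sch (Sol)
open Pool.Agent.T9h43.SA
open scoped Polynomial

namespace Pool.Agent.T9h43.SB

/-- domination at points of `N` -/
def UnbOn {ι : Type} (N : Set ℂ) (J : Finset ι) (f : ι → ℂ → ℂ) : Prop :=
  ∀ M : ℕ, ∃ ρ : ℝ, ∀ (w : ℂ) (r : ℝ), ρ ≤ r → ‖w‖ ≤ 240 * r →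
    ∃ x ∈ ball w r, x ∈ N ∧ ∃ j ∈ J, f j x ≠ 0 ∧ ∀ k ∈ J, k ≠ j → r ^ M * ‖f k x‖ ≤ ‖f j x‖

/-- germs satisfying a relation at the points of `N` have poor images -/
theorem poor_of_unbOn {ι : Type} {N : Set ℂ} {J : Finset ι} {f : ι → ℂ → ℂ} {B : ι → ℂ → ℂ}
    {P : ℂ} (hB : ∀ j ∈ J, AnalyticAt ℂ (B j) P) (hne : ∀ j ∈ J, ¬ ∀ᶠ z in 𝓝 P, B j z = 0)
    (hU : UnbOn N J f) {T : ℂ → (ℂ → ℂ) → Prop}
    (hT : ∀ z ∈ ball (0 : ℂ) 1, ∀ X : ℂ → ℂ, T z X → X z ∈ N → ∑ j ∈ J, B j z * f j (X z) = 0)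
    (hP : P ∈ ball (0 : ℂ) 1) : Poor T P := by
  classical
  obtain ⟨m, κ, C, δ', hκ, hC, hδ', hδ1', hbd'⟩ := anal_bds J hB hne
  obtain ⟨δ, hδ⟩ : ∃ δ : ℝ, δ = min δ' (1 - ‖P‖) := ⟨_, rfl⟩
  have hPn : ‖P‖ < 1 := mem_ball_zero_iff.1 hP
  have hδ0 : 0 < δ := by rw [hδ]; exact lt_min hδ' (by linarith)
  have hδ1 : δ ≤ 1 := by rw [hδ]; exact (min_le_left _ _).trans hδ1'
  have hbd : ∀ j ∈ J, ∀ z : ℂ, ‖z - P‖ < δ → κ * ‖z - P‖ ^ m ≤ ‖B j z‖ ∧ ‖B j z‖ ≤ C :=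
    fun j hj z hz => hbd' j hj z (hz.trans_le (by rw [hδ]; exact min_le_left _ _))
  have hin : ∀ z : ℂ, ‖z - P‖ < δ → z ∈ ball (0 : ℂ) 1 := by
    intro z hz
    have h1 : ‖z - P‖ < 1 - ‖P‖ := hz.trans_le (by rw [hδ]; exact min_le_right _ _)
    have h2 := norm_add_le (z - P) P
    rw [sub_add_cancel] at h2
    rw [mem_ball_zero_iff]
    linarith
  obtain ⟨ρ, hρ⟩ := hU (10 * m + 1)
  obtain ⟨k0, hk0⟩ : ∃ k0 : ℝ, k0 = max (max ρ 1) (J.card * C / κ + 1) := ⟨_, rfl⟩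
  have hk1 : 1 ≤ k0 := by rw [hk0]; exact (le_max_right _ _).trans (le_max_left _ _)
  have hk2 : ρ ≤ k0 := by rw [hk0]; exact (le_max_left _ _).trans (le_max_left _ _)
  have hk3 : J.card * C / κ + 1 ≤ k0 := by rw [hk0]; exact le_max_right _ _
  refine ⟨δ, 240 * k0, hδ0, by positivity, ?_⟩
  intro v s X hs hsP hsub hTX w hball
  -- the size of `s`
  have hs1 : s < 1 := by
    have h1 : v + s ∈ ball P δ := hsub (by
      rw [mem_closedBall_iff_norm, add_sub_cancel_left, Complex.norm_real,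
        Real.norm_of_nonneg hs.le])
    have h2 : v - s ∈ ball P δ := hsub (by
      rw [mem_closedBall_iff_norm, sub_sub_cancel_left, norm_neg, Complex.norm_real,
        Real.norm_of_nonneg hs.le])
    rw [mem_ball_iff_norm] at h1 h2
    have h3 : ((2 * s : ℝ) : ℂ) = (v + s - P) - (v - s - P) := by push_cast; ring
    have h4 := norm_sub_le (v + s - P) (v - s - P)
    rw [← h3, Complex.norm_real, Real.norm_of_nonneg (by linarith)] at h4
    linarith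
  obtain ⟨r, hr⟩ : ∃ r : ℝ, r = (240 * k0 * s ^ (-(1 / 10) : ℝ) + ‖w‖) / 240 := ⟨_, rfl⟩
  rw [← hr] at hball
  have hsp : 1 ≤ s ^ (-(1 / 10) : ℝ) := Real.one_le_rpow_of_pos_of_le_one_of_nonpos hs hs1.le
    (by norm_num)
  have hw0 := norm_nonneg w
  have hrk : k0 * s ^ (-(1 / 10) : ℝ) ≤ r := by
    rw [hr]
    linarith
  have hrs : s ^ (-(1 / 10) : ℝ) ≤ r := le_trans (by nlinarith) hrk
  have hrk' : k0 ≤ r := le_trans (by nlinarith) hrk
  have hr1 : 1 ≤ r := hk1.trans hrk'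
  have hwr : ‖w‖ ≤ 240 * r := by
    rw [hr]
    have : 0 ≤ 240 * k0 * s ^ (-(1 / 10) : ℝ) := by positivity
    linarith
  obtain ⟨x, hx, hxN, j, hj, hfj, hdom⟩ := hρ w r (hk2.trans hrk') hwr
  obtain ⟨z, hz, hzx⟩ := hball hx
  have hzP : ‖z - P‖ < δ := mem_ball_iff_norm.1 (hsub hz)
  have hrel := hT z (hin z hzP) X (hTX z hz) (by rw [hzx]; exact hxN)
  rw [hzx] at hrel
  have hzs : s ≤ ‖z - P‖ := by
    rw [mem_closedBall_iff_norm] at hz
    have h1 : ‖v - P‖ ≤ ‖v - z‖ + ‖z - P‖ := norm_sub_le_norm_sub_add_norm_sub _ _ _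
    rw [norm_sub_rev v z] at h1
    linarith
  -- the dominating term
  have h1 : B j z * f j x = -∑ k ∈ J.erase j, B k z * f k x := by
    rw [eq_neg_iff_add_eq_zero, Finset.add_sum_erase J (fun k => B k z * f k x) hj]
    exact hrel
  have h2 : r ^ (10 * m + 1) * (‖B j z‖ * ‖f j x‖) ≤ J.card * C * ‖f j x‖ := by
    rw [← norm_mul, h1, norm_neg]
    have h3 : ‖∑ k ∈ J.erase j, B k z * f k x‖ ≤ ∑ k ∈ J.erase j, C * ‖f k x‖ := by
      refine (norm_sum_le _ _).trans (Finset.sum_le_sum fun k hk => ?_)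
      rw [norm_mul]
      exact mul_le_mul_of_nonneg_right (hbd k (Finset.mem_of_mem_erase hk) z hzP).2
        (norm_nonneg _)
    have h4 : r ^ (10 * m + 1) * ∑ k ∈ J.erase j, C * ‖f k x‖ ≤
        ∑ _k ∈ J.erase j, C * ‖f j x‖ := by
      rw [Finset.mul_sum]
      refine Finset.sum_le_sum fun k hk => ?_
      have h5 := hdom k (Finset.mem_of_mem_erase hk) (Finset.ne_of_mem_erase hk)
      calc r ^ (10 * m + 1) * (C * ‖f k x‖) = C * (r ^ (10 * m + 1) * ‖f k x‖) := by ring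
        _ ≤ C * ‖f j x‖ := mul_le_mul_of_nonneg_left h5 hC.le
    refine (mul_le_mul_of_nonneg_left h3 (by positivity)).trans (h4.trans ?_)
    rw [Finset.sum_const, nsmul_eq_mul]
    have h6 : ((J.erase j).card : ℝ) ≤ J.card := by
      exact_mod_cast Finset.card_erase_le
    have h7 : 0 ≤ C * ‖f j x‖ := by positivity
    calc ((J.erase j).card : ℝ) * (C * ‖f j x‖) ≤ J.card * (C * ‖f j x‖) :=
          mul_le_mul_of_nonneg_right h6 h7
      _ = J.card * C * ‖f j x‖ := by ring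
  have hfp : 0 < ‖f j x‖ := norm_pos_iff.2 hfj
  have h3 : r ^ (10 * m + 1) * ‖B j z‖ ≤ J.card * C := by
    have : (r ^ (10 * m + 1) * ‖B j z‖) * ‖f j x‖ ≤ (J.card * C) * ‖f j x‖ := by
      rw [mul_assoc]
      exact h2
    exact le_of_mul_le_mul_right this hfp
  have h4 : κ * s ^ m ≤ ‖B j z‖ := by
    refine le_trans ?_ (hbd j hj z hzP).1
    exact mul_le_mul_of_nonneg_left (pow_le_pow_left₀ hs.le hzs m) hκ.le
  have h5 : 1 ≤ r ^ 10 * s := by
    have h6 : (s ^ (-(1 / 10) : ℝ)) ^ 10 = s⁻¹ := by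
      rw [← Real.rpow_natCast, ← Real.rpow_mul hs.le]
      norm_num
      rw [Real.rpow_neg_one]
    have h7 : s⁻¹ ≤ r ^ 10 := by
      rw [← h6]
      exact pow_le_pow_left₀ (by positivity) hrs 10
    calc (1 : ℝ) = s⁻¹ * s := (inv_mul_cancel₀ hs.ne').symm
      _ ≤ r ^ 10 * s := mul_le_mul_of_nonneg_right h7 hs.le
  have h6 : κ * r ≤ J.card * C := by
    have h7 : 1 ≤ (r ^ 10 * s) ^ m := one_le_pow₀ h5
    calc κ * r = κ * r * 1 := by ring
      _ ≤ κ * r * (r ^ 10 * s) ^ m := mul_le_mul_of_nonneg_left h7 (by positivity)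
      _ = r ^ (10 * m + 1) * (κ * s ^ m) := by
          rw [mul_pow, ← pow_mul, pow_succ]
          ring
      _ ≤ r ^ (10 * m + 1) * ‖B j z‖ := mul_le_mul_of_nonneg_left h4 (by positivity)
      _ ≤ _ := h3
  have h7 : J.card * C / κ + 1 ≤ r := hk3.trans hrk'
  have h8 : J.card * C / κ < r := by linarith
  rw [div_lt_iff₀ hκ] at h8
  linarith

/-- a lattice direction -/
theorem direction_lat {α : Type} (L : Finset α) (l : α → ℂ) (m : α → ℕ) (hl : ∀ p ∈ L, l p ≠ 0)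
    (hm : ∀ p ∈ L, m p ≠ 0) {ω1 ω2 : ℂ} (hω : (ω1 * conj ω2).im ≠ 0) :
    ∃ n : ℕ, ∀ p ∈ L, (l p * (ω1 + n * ω2) ^ m p).re ≠ 0 := by
  have hω2 : ω2 ≠ 0 := by
    intro h0
    apply hω
    rw [h0]
    simp
  obtain ⟨P, hP⟩ : ∃ P : α → ℂ[X], P = fun p =>
      Polynomial.C (l p) * (Polynomial.C ω1 + Polynomial.C ω2 * Polynomial.X) ^ m p +
      Polynomial.C (conj (l p)) *
        (Polynomial.C (conj ω1) + Polynomial.C (conj ω2) * Polynomial.X) ^ m p := ⟨_, rfl⟩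
  have hne : ∏ p ∈ L, P p ≠ 0 := by
    rw [Finset.prod_ne_zero_iff]
    intro p hp h0
    have h1 : (P p).eval (-(ω1 / ω2)) = 0 := by rw [h0, Polynomial.eval_zero]
    rw [hP] at h1
    simp only [Polynomial.eval_add, Polynomial.eval_mul, Polynomial.eval_pow, Polynomial.eval_C,
      Polynomial.eval_X] at h1
    have h2 : ω1 + ω2 * -(ω1 / ω2) = 0 := by field_simp; ring
    rw [h2, zero_pow (hm p hp), mul_zero, zero_add] at h1
    rcases mul_eq_zero.1 h1 with h3 | h3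
    · exact hl p hp ((map_eq_zero _).1 h3)
    · have h4 := (pow_eq_zero_iff (hm p hp)).1 h3
      have h5 : conj ω1 * ω2 = conj ω2 * ω1 := by
        have h6 : conj ω1 * ω2 - conj ω2 * ω1 = 0 := by
          calc conj ω1 * ω2 - conj ω2 * ω1 = (conj ω1 + conj ω2 * -(ω1 / ω2)) * ω2 := by
                field_simp
                ring
            _ = 0 := by rw [h4, zero_mul]
        exact sub_eq_zero.1 h6
      apply hω
      have h7 : conj (ω1 * conj ω2) = ω1 * conj ω2 := by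
        rw [map_mul, Complex.conj_conj, h5]
        ring
      exact Complex.conj_eq_iff_im.1 h7
  by_contra hcon
  push Not at hcon
  apply hne
  refine Polynomial.eq_zero_of_infinite_isRoot _ ?_
  have h1 : Set.Infinite (Set.range (fun n : ℕ => (n : ℂ))) :=
    Set.infinite_range_of_injective Nat.cast_injective
  refine h1.mono ?_
  rintro _ ⟨n, rfl⟩
  obtain ⟨p, hp, h2⟩ := hcon n
  show Polynomial.IsRoot _ _
  rw [Polynomial.IsRoot.def, Polynomial.eval_prod]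
  refine Finset.prod_eq_zero hp ?_
  rw [hP]
  simp only [Polynomial.eval_add, Polynomial.eval_mul, Polynomial.eval_pow, Polynomial.eval_C,
    Polynomial.eval_X]
  have h3 : conj (l p) * (conj ω1 + conj ω2 * (n : ℂ)) ^ m p =
      conj (l p * (ω1 + ω2 * (n : ℂ)) ^ m p) := by
    rw [map_mul, map_pow, map_add, map_mul, Complex.conj_natCast]
  rw [h3, Complex.add_conj]
  rw [mul_comm (n : ℂ) ω2] at h2
  rw [h2]
  simp

/-- the lattice is a net -/
theorem lattice_near {ω1 ω2 : ℂ} (hω : (ω1 * conj ω2).im ≠ 0) (x0 w : ℂ) :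
    ∃ m n : ℤ, ‖x0 + m * ω1 + n * ω2 - w‖ ≤ ‖ω1‖ + ‖ω2‖ := by
  obtain ⟨D, hD⟩ : ∃ D : ℝ, D = ω1.im * ω2.re - ω1.re * ω2.im := ⟨_, rfl⟩
  have hD0 : D ≠ 0 := by
    have h1 : (ω1 * conj ω2).im = D := by
      rw [Complex.mul_im, Complex.conj_re, Complex.conj_im, hD]
      ring
    rwa [h1] at hω
  obtain ⟨z, hz⟩ : ∃ z : ℂ, z = w - x0 := ⟨_, rfl⟩
  obtain ⟨s, hs⟩ : ∃ s : ℝ, s = (z.im * ω2.re - z.re * ω2.im) / D := ⟨_, rfl⟩
  obtain ⟨t, ht⟩ : ∃ t : ℝ, t = (z.re * ω1.im - z.im * ω1.re) / D := ⟨_, rfl⟩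
  have hst : z = s * ω1 + t * ω2 := by
    apply Complex.ext
    · rw [Complex.add_re, Complex.re_ofReal_mul, Complex.re_ofReal_mul, hs, ht]
      field_simp
      rw [hD]
      ring
    · rw [Complex.add_im, Complex.im_ofReal_mul, Complex.im_ofReal_mul, hs, ht]
      field_simp
      rw [hD]
      ring
  refine ⟨⌊s⌋, ⌊t⌋, ?_⟩
  have h1 : x0 + (⌊s⌋ : ℂ) * ω1 + (⌊t⌋ : ℂ) * ω2 - w =
      -(((Int.fract s : ℝ) : ℂ) * ω1 + ((Int.fract t : ℝ) : ℂ) * ω2) := by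
    have h2 : w = x0 + z := by rw [hz]; ring
    rw [h2, hst, Int.fract, Int.fract]
    push_cast
    ring
  rw [h1, norm_neg]
  refine (norm_add_le _ _).trans (add_le_add ?_ ?_)
  · rw [norm_mul, Complex.norm_real, Real.norm_of_nonneg (Int.fract_nonneg s)]
    exact mul_le_of_le_one_left (norm_nonneg _) (Int.fract_lt_one s).le
  · rw [norm_mul, Complex.norm_real, Real.norm_of_nonneg (Int.fract_nonneg t)]
    exact mul_le_of_le_one_left (norm_nonneg _) (Int.fract_lt_one t).le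

/-- exponentials of polynomials on a lattice -/
theorem lattice_unb {ι : Type} [DecidableEq ι] {J : Finset ι} (hJ : J.Nonempty) {q : ι → ℂ[X]}
    (hq : ∀ j ∈ J, ∀ k ∈ J, j ≠ k → (q j - q k).natDegree ≠ 0) {ω1 ω2 : ℂ}
    (hω : (ω1 * conj ω2).im ≠ 0) (x0 : ℂ) :
    UnbOn {x : ℂ | ∃ m n : ℤ, x = x0 + m * ω1 + n * ω2} J (fun j x => exp ((q j).eval x)) := by
  intro M
  obtain ⟨L, hL⟩ : ∃ L : Finset (ι × ι), L = (J ×ˢ J).filter (fun e => e.1 ≠ e.2) := ⟨_, rfl⟩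
  have hLm : ∀ e : ι × ι, e ∈ L ↔ e.1 ∈ J ∧ e.2 ∈ J ∧ e.1 ≠ e.2 := by
    intro e
    rw [hL, Finset.mem_filter, Finset.mem_product, and_assoc]
  obtain ⟨l, hl⟩ : ∃ l : ι × ι → ℂ, l = fun e => (q e.1 - q e.2).leadingCoeff := ⟨_, rfl⟩
  obtain ⟨m, hm⟩ : ∃ m : ι × ι → ℕ, m = fun e => (q e.1 - q e.2).natDegree := ⟨_, rfl⟩
  have hm0 : ∀ e ∈ L, m e ≠ 0 := by
    intro e he
    obtain ⟨h1, h2, h3⟩ := (hLm e).1 he
    rw [hm]
    exact hq _ h1 _ h2 h3
  have hl0 : ∀ e ∈ L, l e ≠ 0 := by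
    intro e he h0
    rw [hl] at h0
    have h1 := hm0 e he
    rw [hm] at h1
    apply h1
    simp only at h0 ⊢
    rw [Polynomial.leadingCoeff_eq_zero.1 h0, Polynomial.natDegree_zero]
  obtain ⟨n0, hn0⟩ := direction_lat L l m hl0 hm0 hω
  obtain ⟨v0, hv0⟩ : ∃ v0 : ℂ, v0 = ω1 + n0 * ω2 := ⟨_, rfl⟩
  rw [← hv0] at hn0
  have hv0n : v0 ≠ 0 := by
    intro h0
    apply hω
    have h1 : ω1 = -(n0 * ω2) := by
      rw [hv0] at h0
      linear_combination h0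
    rw [h1]
    have h2 : -((n0 : ℂ) * ω2) * conj ω2 = ((-(n0 : ℝ) * ‖ω2‖ ^ 2 : ℝ) : ℂ) := by
      rw [neg_mul, mul_assoc, Complex.mul_conj, Complex.normSq_eq_norm_sq]
      push_cast
      ring
    rw [h2, Complex.ofReal_im]
  obtain ⟨κ0, hκ0, hκ⟩ := fin_pos L (fun e => |(l e * v0 ^ m e).re|)
    (fun e he => abs_pos.2 (hn0 e he))
  obtain ⟨D, hD⟩ : ∃ D : ℕ, D = L.sup m := ⟨_, rfl⟩
  have hmD : ∀ e ∈ L, m e ≤ D := fun e he => by rw [hD]; exact Finset.le_sup he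
  obtain ⟨N, hN⟩ : ∃ N : ℕ, N = L.card * D + 1 := ⟨_, rfl⟩
  obtain ⟨V, hV⟩ : ∃ V : ℝ, V = ‖v0‖ := ⟨_, rfl⟩
  have hVp : 0 < V := by rw [hV]; exact norm_pos_iff.2 hv0n
  obtain ⟨C0, hC0⟩ : ∃ C0 : ℝ, C0 = ‖ω1‖ + ‖ω2‖ := ⟨_, rfl⟩
  have hC00 : 0 ≤ C0 := by rw [hC0]; positivity
  obtain ⟨k0, hk0⟩ : ∃ k0 : ℝ, k0 = 2 * ((N + 1 : ℝ) * V) := ⟨_, rfl⟩
  have hk0p : 0 < k0 := by rw [hk0]; positivity
  have hev : ∀ᶠ r : ℝ in atTop, (D + 1 : ℝ) * ((M : ℝ) * Real.log r) < κ0 * (r / k0 - 1) ∧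
      1 ≤ r / k0 - 1 ∧ 2 * C0 < r ∧ 1 ≤ r := by
    obtain ⟨ε, hε⟩ : ∃ ε : ℝ, ε = κ0 / k0 / (4 * ((D + 1 : ℝ) * ((M : ℝ) + 1))) := ⟨_, rfl⟩
    have hεp : 0 < ε := by rw [hε]; positivity
    have h1 := Real.isLittleO_log_id_atTop.bound hεp
    have h2 : Tendsto (fun r : ℝ => r / k0) atTop atTop := tendsto_id.atTop_div_const hk0p
    filter_upwards [h1, h2.eventually_ge_atTop 2, eventually_gt_atTop (2 * C0),
      eventually_ge_atTop (1 : ℝ)] with r h4 h5 h6 h8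
    refine ⟨?_, by linarith, h6, h8⟩
    have h9 : Real.log r ≤ ε * r := by
      rw [Real.norm_eq_abs, Real.norm_eq_abs, id, abs_of_nonneg (by linarith : (0 : ℝ) ≤ r)] at h4
      exact (le_abs_self _).trans h4
    have h10 : (D + 1 : ℝ) * ((M : ℝ) * Real.log r) ≤ κ0 * (r / k0) / 4 := by
      have h11 : (D + 1 : ℝ) * ((M : ℝ) * Real.log r) ≤
          (D + 1 : ℝ) * (((M : ℝ) + 1) * (ε * r)) := by
        refine mul_le_mul_of_nonneg_left ?_ (by positivity)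
        have hlr : 0 ≤ Real.log r := Real.log_nonneg h8
        exact mul_le_mul (by linarith) h9 hlr (by positivity)
      refine h11.trans (le_of_eq ?_)
      rw [hε]
      field_simp
    have h12 : κ0 * 2 ≤ κ0 * (r / k0) := mul_le_mul_of_nonneg_left h5 hκ0.le
    have h13 : κ0 * (r / k0 - 1) = κ0 * (r / k0) - κ0 := by ring
    rw [h13]
    linarith
  obtain ⟨ρ, hρ⟩ := eventually_atTop.1 hev
  refine ⟨ρ, fun w r hr hw => ?_⟩
  obtain ⟨hr3, hr4, hr5, hr6⟩ := hρ r hr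
  have hr0 : 0 < r := by linarith
  obtain ⟨T, hT⟩ : ∃ T : ℕ, T = ⌊r / k0⌋₊ := ⟨_, rfl⟩
  have hT1 : r / k0 - 1 < T := by
    rw [hT]
    have := Nat.lt_floor_add_one (r / k0)
    linarith
  have hT2 : (T : ℝ) ≤ r / k0 := by
    rw [hT]
    exact Nat.floor_le (by positivity)
  have hT3 : (1 : ℝ) ≤ T := by linarith
  obtain ⟨m1, m2, hm12⟩ := lattice_near hω x0 w
  rw [← hC0] at hm12
  obtain ⟨w', hw'⟩ : ∃ w' : ℂ, w' = x0 + m1 * ω1 + m2 * ω2 := ⟨_, rfl⟩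
  rw [← hw'] at hm12
  obtain ⟨t, ht⟩ : ∃ t : ℕ → ℝ, t = fun i : ℕ => (i : ℝ) * T := ⟨_, rfl⟩
  have htd : ∀ i j : ℕ, i ≠ j → (T : ℝ) ≤ |t i - t j| := by
    intro i j hij
    have h1 : t i - t j = ((i : ℝ) - j) * T := by rw [ht]; ring
    rw [h1, abs_mul, abs_of_pos (by linarith : (0 : ℝ) < T)]
    have h2 : (1 : ℝ) ≤ |(i : ℝ) - j| := by
      have h3 : ((i : ℤ) - j) ≠ 0 := by omega
      have h4 := Int.one_le_abs h3
      have h5 : ((1 : ℤ) : ℝ) ≤ ((|(i : ℤ) - j| : ℤ) : ℝ) := by exact_mod_cast h4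
      rw [Int.cast_abs] at h5
      push_cast at h5
      exact h5
    nlinarith
  obtain ⟨x, hx⟩ : ∃ x : ℕ → ℂ, x = fun i => w' + t i * v0 := ⟨_, rfl⟩
  have hxb : ∀ i < N, x i ∈ ball w r := by
    intro i hi
    rw [mem_ball_iff_norm, hx]
    simp only
    have h1 : w' + (t i : ℂ) * v0 - w = (w' - w) + (t i : ℂ) * v0 := by ring
    rw [h1]
    refine (norm_add_le _ _).trans_lt ?_
    rw [norm_mul, Complex.norm_real, ← hV, ht]
    simp only
    rw [Real.norm_of_nonneg (by positivity)]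
    have h2 : (i : ℝ) ≤ N := by exact_mod_cast hi.le
    have h3 : (i : ℝ) * T * V ≤ r / 2 := by
      have h4 : (T : ℝ) * k0 ≤ r := (le_div_iff₀ hk0p).1 hT2
      rw [hk0] at h4
      have h5 : (i : ℝ) * T * V ≤ N * T * V := by
        have : 0 < (T : ℝ) * V := by positivity
        nlinarith
      have h6 : 0 < (T : ℝ) * V := by positivity
      nlinarith
    linarith
  have hxN : ∀ i : ℕ, x i ∈ {x : ℂ | ∃ m n : ℤ, x = x0 + m * ω1 + n * ω2} := by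
    intro i
    refine ⟨m1 + i * T, m2 + i * T * n0, ?_⟩
    rw [hx, hw', ht, hv0]
    push_cast
    ring
  by_contra hcon
  push Not at hcon
  have hpair : ∀ i ∈ Finset.range N, ∃ e ∈ L,
      |((q e.1 - q e.2).eval (x i)).re| ≤ (M : ℝ) * Real.log r := by
    intro i hi
    rw [Finset.mem_range] at hi
    obtain ⟨j0, hj0, hmax⟩ := J.exists_max_image (fun j => ((q j).eval (x i)).re) hJ
    obtain ⟨k, hk, hkj, hlt⟩ := hcon (x i) (hxb i hi) (hxN i) j0 hj0 (exp_ne_zero _)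
    refine ⟨(j0, k), (hLm _).2 ⟨hj0, hk, fun h => hkj h.symm⟩, ?_⟩
    simp only [Polynomial.eval_sub, Complex.sub_re]
    rw [abs_of_nonneg (sub_nonneg.2 (hmax k hk))]
    rw [Complex.norm_exp, Complex.norm_exp] at hlt
    have h2 : Real.exp (((q j0).eval (x i)).re - ((q k).eval (x i)).re) < r ^ M := by
      rw [Real.exp_sub, div_lt_iff₀ (Real.exp_pos _)]
      exact hlt
    have h3 := Real.log_lt_log (Real.exp_pos _) h2
    rw [Real.log_exp, Real.log_pow] at h3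
    exact h3.le
  have : Nonempty ι := ⟨hJ.choose⟩
  choose! e he heb using hpair
  have hcard : L.card * D < (Finset.range N).card := by
    rw [Finset.card_range, hN]
    omega
  obtain ⟨e0, he0, hfib⟩ := Finset.exists_lt_card_fiber_of_mul_lt_card_of_maps_to he hcard
  obtain ⟨S, hSsub, hScard⟩ := Finset.exists_subset_card_eq
    (show m e0 + 1 ≤ _ from lt_of_le_of_lt (hmD e0 he0) hfib)
  have hSm : ∀ i ∈ S, i ∈ Finset.range N ∧ e i = e0 := by
    intro i hi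
    have := hSsub hi
    rw [Finset.mem_filter] at this
    exact this
  have hTp : (0 : ℝ) < T := by linarith
  have hdiv := divided (q := q e0.1 - q e0.2) (w := w') (v := v0) (S := S) (t := t) (m := m e0)
    (T := (T : ℝ)) (M := (M : ℝ) * Real.log r) hTp hv0n (by rw [hm]) hScard
    (fun i _ j _ hij => htd i j hij) (by
      intro i hi
      obtain ⟨h1, h2⟩ := hSm i hi
      have h3 := heb i h1
      rw [h2, hx] at h3
      exact h3)
  have h1 := hκ e0 he0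
  simp only [hl] at h1
  have h2 : (T : ℝ) ≤ (T : ℝ) ^ m e0 := le_self_pow₀ hT3 (hm0 e0 he0)
  have h3 : κ0 * T ≤ (m e0 + 1) * ((M : ℝ) * Real.log r) :=
    (mul_le_mul h1 h2 hTp.le (abs_nonneg _)).trans hdiv
  have h4 : 0 ≤ (M : ℝ) * Real.log r := mul_nonneg (Nat.cast_nonneg M) (Real.log_nonneg hr6)
  have h5 : ((m e0 : ℝ) + 1) * ((M : ℝ) * Real.log r) ≤ (D + 1 : ℝ) * ((M : ℝ) * Real.log r) := by
    refine mul_le_mul_of_nonneg_right ?_ h4
    have : (m e0 : ℝ) ≤ D := by exact_mod_cast hmD e0 he0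
    linarith
  have h6 : κ0 * (r / k0 - 1) ≤ κ0 * T := mul_le_mul_of_nonneg_left hT1.le hκ0.le
  linarith

/-- a common nonzero point of finitely many nonzero entire functions -/
theorem common_ne {ι : Type} (J : Finset ι) {h : ι → ℂ → ℂ} (hd : ∀ j ∈ J, Differentiable ℂ (h j))
    (hne : ∀ j ∈ J, ∃ x, h j x ≠ 0) : ∃ x0 : ℂ, ∀ j ∈ J, h j x0 ≠ 0 := by
  have h1 : ∀ᶠ x in 𝓝[≠] (0 : ℂ), ∀ j ∈ J, h j x ≠ 0 := by
    rw [Filter.eventually_all_finset]
    intro j hj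
    have han : AnalyticOnNhd ℂ (h j) univ := (hd j hj).differentiableOn.analyticOnNhd isOpen_univ
    rcases (han 0 (mem_univ _)).eventually_eq_zero_or_eventually_ne_zero with h2 | h2
    · exfalso
      obtain ⟨x, hx⟩ := hne j hj
      exact hx (han.eqOn_zero_of_preconnected_of_eventuallyEq_zero isPreconnected_univ
        (mem_univ _) h2 (mem_univ x))
    · exact h2
  exact h1.exists

/-- no solution for theta-exponential relations -/
theorem final_theta {φ : ℂ → ℂ} {r lam c : ℝ} {u : ℂ → ℝ} {G0 : ℂ → ℂ} (hr : 1 < r)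
    (hφ : DifferentiableOn ℂ φ (ball 0 r)) (hinj : InjOn φ (ball 0 r)) (hlam : 0 < lam)
    (hc : c ≠ 0) (hS : Sol (φ '' ball 0 1) lam c u G0) {n l : ℕ} {ω1 ω2 : ℂ}
    (hω : (ω1 * conj ω2).im ≠ 0) {g : Fin l → ℂ → ℂ} (hg : ∀ k, Differentiable ℂ (g k))
    (hlin : LinearIndependent ℂ g)
    (hth : ∀ (m1 m2 : ℤ) (x : ℂ), ∃ μ : ℂ, μ ≠ 0 ∧ ∀ k, g k (x + m1 * ω1 + m2 * ω2) = μ * g k x)
    {q : Fin n → ℂ[X]} (hq : ∀ j k, j ≠ k → (q j - q k).natDegree ≠ 0)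
    {B : Fin n → Fin l → ℂ → ℂ} (hB : ∀ j k, DifferentiableOn ℂ (B j k) (ball 0 1))
    (hne : ∃ j k, ∃ v ∈ ball (0 : ℂ) 1, B j k v ≠ 0)
    {s : ℝ} (hs1 : s < 1) (hsr : r⁻¹ ≤ s)
    (hrel : ∀ v : ℂ, s < ‖v‖ → ‖v‖ < 1 →
      ∑ j, (∑ k, B j k v * g k (Rf φ v)) * exp ((q j).eval (Rf φ v)) = 0) : False := by
  classical
  obtain ⟨J, hJ⟩ : ∃ J : Finset (Fin n), J = Finset.univ.filter
    (fun j => ∃ k, ∃ v ∈ ball (0 : ℂ) 1, B j k v ≠ 0) := ⟨_, rfl⟩
  have hJm : ∀ j, j ∈ J ↔ ∃ k, ∃ v ∈ ball (0 : ℂ) 1, B j k v ≠ 0 := by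
    intro j
    rw [hJ, Finset.mem_filter]
    exact ⟨fun h => h.2, fun h => ⟨Finset.mem_univ j, h⟩⟩
  have hJn : J.Nonempty := by
    obtain ⟨j, k, h⟩ := hne
    exact ⟨j, (hJm j).2 ⟨k, h⟩⟩
  have hJ0 : ∀ j, j ∉ J → ∀ k, ∀ v ∈ ball (0 : ℂ) 1, B j k v = 0 := by
    intro j hj k v hv
    by_contra h0
    exact hj ((hJm j).2 ⟨k, v, hv, h0⟩)
  -- points of nonvanishing
  have hpt : ∀ j ∈ J, ∃ k, ∃ v ∈ ball (0 : ℂ) 1, B j k v ≠ 0 := fun j hj => (hJm j).1 hj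
  have hln : Nonempty (Fin l) := by
    obtain ⟨_, k1, _⟩ := hne
    exact ⟨k1⟩
  choose! kk vv hvv hvv0 using hpt
  obtain ⟨x0, hx0⟩ := common_ne J (h := fun j x => ∑ k, B j k (vv j) * g k x) (by
    intro j _
    exact Differentiable.fun_sum fun k _ => (hg k).const_mul _) (by
    intro j hj
    by_contra hcon
    push Not at hcon
    rw [Fintype.linearIndependent_iff] at hlin
    have h1 := hlin (fun k => B j k (vv j)) (by
      funext x
      rw [Finset.sum_apply]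
      simpa using hcon x) (kk j)
    exact hvv0 j hj h1)
  obtain ⟨α, hα⟩ : ∃ α : Fin n → ℂ → ℂ, α = fun j v => ∑ k, B j k v * g k x0 := ⟨_, rfl⟩
  have hαd : ∀ j, DifferentiableOn ℂ (α j) (ball 0 1) := by
    intro j
    rw [hα]
    exact DifferentiableOn.fun_sum fun k _ => (hB j k).mul_const _
  have hαan : ∀ j, AnalyticOnNhd ℂ (α j) (ball 0 1) := fun j =>
    (hαd j).analyticOnNhd isOpen_ball
  obtain ⟨T, hT⟩ : ∃ T : ℂ → (ℂ → ℂ) → Prop, T = fun z X =>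
    ∀ᶠ v in 𝓝 z, ∑ j, (∑ k, B j k v * g k (X v)) * exp ((q j).eval (X v)) = 0 := ⟨_, rfl⟩
  refine final_abs hr hφ hinj hlam hc hS (T := T) ?_ ?_ hs1 hsr ?_ ?_
  · intro u X Y hX hXY
    rw [hT] at hX ⊢
    filter_upwards [hX, hXY] with v h1 h2
    rw [← h2]
    exact h1
  · intro V X u u' hV hVp hVs hX hu hu' hTX
    rw [hT] at hTX ⊢
    have hd : DifferentiableOn ℂ
        (fun v => ∑ j, (∑ k, B j k v * g k (X v)) * exp ((q j).eval (X v))) V := by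
      refine DifferentiableOn.fun_sum fun j _ => DifferentiableOn.mul ?_ ?_
      · exact DifferentiableOn.fun_sum fun k _ => ((hB j k).mono hVs).mul
          ((hg k).comp_differentiableOn hX)
      · exact ((Polynomial.differentiable (q j)).comp_differentiableOn hX).cexp
    have h1 := eq_on (g := fun _ => 0) hV hVp hd (differentiableOn_const _) hu hTX
    filter_upwards [hV.mem_nhds hu'] with v hv
    exact h1 hv
  · intro v hv1 hv2
    rw [hT]
    filter_upwards [(annulus_open s 1).mem_nhds (show v ∈ {u : ℂ | s < ‖u‖ ∧ ‖u‖ < 1} from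
      ⟨hv1, hv2⟩)] with w hw
    exact hrel w hw.1 hw.2
  · intro P hP
    refine poor_of_unbOn (B := α) (fun j _ => hαan j P hP) ?_
      (lattice_unb hJn (fun j _ k _ hjk => hq j k hjk) hω x0) ?_ hP
    · intro j hj h1
      have h2 := (hαan j).eqOn_zero_of_preconnected_of_eventuallyEq_zero
        (convex_ball _ _).isPreconnected hP h1 (hvv j hj)
      rw [hα] at h2
      exact hx0 j hj h2
    · intro z hz X hTX hXN
      rw [hT] at hTX
      have h1 := hTX.self_of_nhds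
      obtain ⟨m1, m2, hm⟩ := hXN
      obtain ⟨μ, hμ, hμg⟩ := hth m1 m2 x0
      rw [← hm] at hμg
      have h2 : ∑ j, (∑ k, B j k z * g k (X z)) * exp ((q j).eval (X z)) =
          μ * ∑ j, α j z * exp ((q j).eval (X z)) := by
        rw [Finset.mul_sum]
        refine Finset.sum_congr rfl fun j _ => ?_
        rw [hα, ← mul_assoc]
        congr 1
        rw [Finset.mul_sum]
        refine Finset.sum_congr rfl fun k _ => ?_
        rw [hμg k]
        ring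
      rw [h2] at h1
      have h3 := (mul_eq_zero.1 h1).resolve_left hμ
      rw [← h3]
      refine Finset.sum_subset (Finset.subset_univ J) fun j _ hj => ?_
      have h5 : α j z = 0 := by
        rw [hα]
        exact Finset.sum_eq_zero fun k _ => by rw [hJ0 j hj k z hz, zero_mul]
      rw [h5, zero_mul]

end Pool.Agent.T9h43.SB
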