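import Pool.Agent.T9h43.SB.Fin
import Pool.Agent.T9h43.SB.Expo

/-!
Relations between `z` and the values of entire functions at `conj z`.
-/

set_option autoImplicit false

open Complex MeasureTheory Metric Set Filter Topology ComplexConjugate
open Pool.Agent.Y245.SC Pool.Agent.Y245.UC
open Pool.Agent.TH298.Sch (Sol)
open Pool.Agent.T9h43.SA

namespace Pool.Agent.T9h43.SB

/-- two sided bound near a point -/
theorem anal_bd {g : ℂ → ℂ} {P : ℂ} (hg : AnalyticAt ℂ g P) (hne : ¬ ∀ᶠ z in 𝓝 P, g z = 0) :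
    ∃ (m : ℕ) (κ C δ : ℝ), 0 < κ ∧ 0 < δ ∧ ∀ z : ℂ, ‖z - P‖ < δ →
      κ * ‖z - P‖ ^ m ≤ ‖g z‖ ∧ ‖g z‖ ≤ C := by
  obtain ⟨m, h, hh, hh0, he⟩ := hg.exists_eventuallyEq_pow_smul_nonzero_iff.2 hne
  have hp : 0 < ‖h P‖ := norm_pos_iff.2 hh0
  have h1 : ∀ᶠ z in 𝓝 P, ‖h P‖ / 2 < ‖h z‖ :=
    hh.continuousAt.norm.eventually_const_lt (by linarith)
  have h2 : ∀ᶠ z in 𝓝 P, ‖g z‖ < ‖g P‖ + 1 :=
    hg.continuousAt.norm.eventually_lt_const (by linarith)
  obtain ⟨δ, hδ, h3⟩ := Metric.eventually_nhds_iff.1 (he.and (h1.and h2))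
  refine ⟨m, ‖h P‖ / 2, ‖g P‖ + 1, δ, by positivity, hδ, fun z hz => ?_⟩
  obtain ⟨h4, h5, h6⟩ := h3 (by rwa [dist_eq_norm])
  refine ⟨?_, h6.le⟩
  rw [h4, norm_smul, norm_pow, mul_comm]
  exact mul_le_mul_of_nonneg_left h5.le (by positivity)

/-- uniform two sided bounds -/
theorem anal_bds {ι : Type} (J : Finset ι) {B : ι → ℂ → ℂ} {P : ℂ}
    (hB : ∀ j ∈ J, AnalyticAt ℂ (B j) P) (hne : ∀ j ∈ J, ¬ ∀ᶠ z in 𝓝 P, B j z = 0) :
    ∃ (m : ℕ) (κ C δ : ℝ), 0 < κ ∧ 0 < C ∧ 0 < δ ∧ δ ≤ 1 ∧ ∀ j ∈ J, ∀ z : ℂ, ‖z - P‖ < δ →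
      κ * ‖z - P‖ ^ m ≤ ‖B j z‖ ∧ ‖B j z‖ ≤ C := by
  choose! m κ C δ hκ hδ h using fun j (hj : j ∈ J) => anal_bd (hB j hj) (hne j hj)
  obtain ⟨κ0, hκ0, hκ0'⟩ := fin_pos J κ hκ
  obtain ⟨δ0, hδ0, hδ0'⟩ := fin_pos J δ hδ
  refine ⟨J.sup m, κ0, 1 + ∑ j ∈ J, |C j|, min δ0 1, hκ0, ?_, lt_min hδ0 one_pos,
    min_le_right _ _, fun j hj z hz => ?_⟩
  · have : 0 ≤ ∑ j ∈ J, |C j| := Finset.sum_nonneg fun j _ => abs_nonneg _
    linarith
  · obtain ⟨h1, h2⟩ := h j hj z ((hz.trans_le (min_le_left _ _)).trans_le (hδ0' j hj))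
    constructor
    · refine le_trans ?_ h1
      have h3 : ‖z - P‖ ^ J.sup m ≤ ‖z - P‖ ^ m j :=
        pow_le_pow_of_le_one (norm_nonneg _) (hz.trans_le (min_le_right _ _)).le
          (Finset.le_sup (f := m) hj)
      exact mul_le_mul (hκ0' j hj) h3 (by positivity) (hκ j hj).le
    · have h3 := Finset.single_le_sum (f := fun j => |C j|) (fun i _ => abs_nonneg _) hj
      have h4 := le_abs_self (C j)
      linarith

/-- germs satisfying a relation with dominating functions have poor images -/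
theorem poor_of_unb {ι : Type} {J : Finset ι} {f : ι → ℂ → ℂ} {B : ι → ℂ → ℂ} {P : ℂ}
    (hB : ∀ j ∈ J, AnalyticAt ℂ (B j) P) (hne : ∀ j ∈ J, ¬ ∀ᶠ z in 𝓝 P, B j z = 0)
    (hU : Unb J f) {T : ℂ → (ℂ → ℂ) → Prop}
    (hT : ∀ (z : ℂ) (X : ℂ → ℂ), T z X → ∑ j ∈ J, B j z * f j (X z) = 0) : Poor T P := by
  classical
  obtain ⟨m, κ, C, δ, hκ, hC, hδ, hδ1, hbd⟩ := anal_bds J hB hne
  obtain ⟨ρ, hρ⟩ := hU (10 * m + 1)
  obtain ⟨k0, hk0⟩ : ∃ k0 : ℝ, k0 = max (max ρ 1) (J.card * C / κ + 1) := ⟨_, rfl⟩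
  have hk1 : 1 ≤ k0 := by rw [hk0]; exact (le_max_right _ _).trans (le_max_left _ _)
  have hk2 : ρ ≤ k0 := by rw [hk0]; exact (le_max_left _ _).trans (le_max_left _ _)
  have hk3 : J.card * C / κ + 1 ≤ k0 := by rw [hk0]; exact le_max_right _ _
  refine ⟨δ, 240 * k0, hδ, by positivity, ?_⟩
  intro v s X hs hsP hsub hTX w hball
  -- the size of `s`
  have hs1 : s < 1 := by
    have h1 : v + s ∈ ball P δ := hsub (by
      rw [mem_closedBall_iff_norm, add_sub_cancel_left, Complex.norm_real,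
        Real.norm_of_nonneg hs.le])
    have h2 : v - s ∈ ball P δ := hsub (by
      rw [mem_closedBall_iff_norm, sub_sub_cancel_left, norm_neg, Complex.norm_real,
        Real.norm_of_nonneg hs.le])
    rw [mem_ball_iff_norm] at h1 h2
    have h3 : ((2 * s : ℝ) : ℂ) = (v + s - P) - (v - s - P) := by push_cast; ring
    have h4 := norm_sub_le (v + s - P) (v - s - P)
    rw [← h3, Complex.norm_real, Real.norm_of_nonneg (by linarith)] at h4
    linarith
  obtain ⟨r, hr⟩ : ∃ r : ℝ, r = (240 * k0 * s ^ (-(1 / 10) : ℝ) + ‖w‖) / 240 := ⟨_, rfl⟩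
  rw [← hr] at hball
  have hsp : 1 ≤ s ^ (-(1 / 10) : ℝ) := Real.one_le_rpow_of_pos_of_le_one_of_nonpos hs hs1.le
    (by norm_num)
  have hw0 := norm_nonneg w
  have hrk : k0 * s ^ (-(1 / 10) : ℝ) ≤ r := by
    rw [hr]
    linarith
  have hrs : s ^ (-(1 / 10) : ℝ) ≤ r := le_trans (by nlinarith) hrk
  have hrk' : k0 ≤ r := le_trans (by nlinarith) hrk
  have hr1 : 1 ≤ r := hk1.trans hrk'
  have hwr : ‖w‖ ≤ 240 * r := by
    rw [hr]
    have : 0 ≤ 240 * k0 * s ^ (-(1 / 10) : ℝ) := by positivity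
    linarith
  obtain ⟨x, hx, j, hj, hfj, hdom⟩ := hρ w r (hk2.trans hrk') hwr
  obtain ⟨z, hz, hzx⟩ := hball hx
  have hrel := hT z X (hTX z hz)
  rw [hzx] at hrel
  have hzP : ‖z - P‖ < δ := mem_ball_iff_norm.1 (hsub hz)
  have hzs : s ≤ ‖z - P‖ := by
    rw [mem_closedBall_iff_norm] at hz
    have h1 : ‖v - P‖ ≤ ‖v - z‖ + ‖z - P‖ := norm_sub_le_norm_sub_add_norm_sub _ _ _
    rw [norm_sub_rev v z] at h1
    linarith
  -- the dominating term
  have h1 : B j z * f j x = -∑ k ∈ J.erase j, B k z * f k x := by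
    rw [eq_neg_iff_add_eq_zero, Finset.add_sum_erase J (fun k => B k z * f k x) hj]
    exact hrel
  have h2 : r ^ (10 * m + 1) * (‖B j z‖ * ‖f j x‖) ≤ J.card * C * ‖f j x‖ := by
    rw [← norm_mul, h1, norm_neg]
    have h3 : ‖∑ k ∈ J.erase j, B k z * f k x‖ ≤ ∑ k ∈ J.erase j, C * ‖f k x‖ := by
      refine (norm_sum_le _ _).trans (Finset.sum_le_sum fun k hk => ?_)
      rw [norm_mul]
      exact mul_le_mul_of_nonneg_right (hbd k (Finset.mem_of_mem_erase hk) z hzP).2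
        (norm_nonneg _)
    have h4 : r ^ (10 * m + 1) * ∑ k ∈ J.erase j, C * ‖f k x‖ ≤
        ∑ _k ∈ J.erase j, C * ‖f j x‖ := by
      rw [Finset.mul_sum]
      refine Finset.sum_le_sum fun k hk => ?_
      have h5 := hdom k (Finset.mem_of_mem_erase hk) (Finset.ne_of_mem_erase hk)
      calc r ^ (10 * m + 1) * (C * ‖f k x‖) = C * (r ^ (10 * m + 1) * ‖f k x‖) := by ring
        _ ≤ C * ‖f j x‖ := mul_le_mul_of_nonneg_left h5 hC.le
    refine (mul_le_mul_of_nonneg_left h3 (by positivity)).trans (h4.trans ?_)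
    rw [Finset.sum_const, nsmul_eq_mul]
    have h6 : ((J.erase j).card : ℝ) ≤ J.card := by
      exact_mod_cast Finset.card_erase_le
    have h7 : 0 ≤ C * ‖f j x‖ := by positivity
    calc ((J.erase j).card : ℝ) * (C * ‖f j x‖) ≤ J.card * (C * ‖f j x‖) :=
          mul_le_mul_of_nonneg_right h6 h7
      _ = J.card * C * ‖f j x‖ := by ring
  have hfp : 0 < ‖f j x‖ := norm_pos_iff.2 hfj
  have h3 : r ^ (10 * m + 1) * ‖B j z‖ ≤ J.card * C := by
    have : (r ^ (10 * m + 1) * ‖B j z‖) * ‖f j x‖ ≤ (J.card * C) * ‖f j x‖ := by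
      rw [mul_assoc]
      exact h2
    exact le_of_mul_le_mul_right this hfp
  have h4 : κ * s ^ m ≤ ‖B j z‖ := by
    refine le_trans ?_ (hbd j hj z hzP).1
    exact mul_le_mul_of_nonneg_left (pow_le_pow_left₀ hs.le hzs m) hκ.le
  have h5 : 1 ≤ r ^ 10 * s := by
    have h6 : (s ^ (-(1 / 10) : ℝ)) ^ 10 = s⁻¹ := by
      rw [← Real.rpow_natCast, ← Real.rpow_mul hs.le]
      norm_num
      rw [Real.rpow_neg_one]
    have h7 : s⁻¹ ≤ r ^ 10 := by
      rw [← h6]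
      exact pow_le_pow_left₀ (by positivity) hrs 10
    calc (1 : ℝ) = s⁻¹ * s := (inv_mul_cancel₀ hs.ne').symm
      _ ≤ r ^ 10 * s := mul_le_mul_of_nonneg_right h7 hs.le
  have h6 : κ * r ≤ J.card * C := by
    have h7 : 1 ≤ (r ^ 10 * s) ^ m := one_le_pow₀ h5
    calc κ * r = κ * r * 1 := by ring
      _ ≤ κ * r * (r ^ 10 * s) ^ m := mul_le_mul_of_nonneg_left h7 (by positivity)
      _ = r ^ (10 * m + 1) * (κ * s ^ m) := by
          rw [mul_pow, ← pow_mul, pow_succ]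
          ring
      _ ≤ r ^ (10 * m + 1) * ‖B j z‖ := mul_le_mul_of_nonneg_left h4 (by positivity)
      _ ≤ _ := h3
  have h7 : J.card * C / κ + 1 ≤ r := hk3.trans hrk'
  have h8 : J.card * C / κ < r := by linarith
  rw [div_lt_iff₀ hκ] at h8
  linarith

/-- no solution for relations with dominating functions -/
theorem final_unb {φ : ℂ → ℂ} {r lam c : ℝ} {u : ℂ → ℝ} {G0 : ℂ → ℂ} (hr : 1 < r)
    (hφ : DifferentiableOn ℂ φ (ball 0 r)) (hinj : InjOn φ (ball 0 r)) (hlam : 0 < lam)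
    (hc : c ≠ 0) (hS : Sol (φ '' ball 0 1) lam c u G0) {ι : Type} {J : Finset ι}
    {f : ι → ℂ → ℂ} (hf : ∀ j ∈ J, Differentiable ℂ (f j)) {B : ι → ℂ → ℂ}
    (hB : ∀ j ∈ J, DifferentiableOn ℂ (B j) (ball 0 1))
    (hne : ∀ j ∈ J, ∃ v ∈ ball (0 : ℂ) 1, B j v ≠ 0) (hU : Unb J f)
    {s : ℝ} (hs1 : s < 1) (hsr : r⁻¹ ≤ s)
    (hrel : ∀ v : ℂ, s < ‖v‖ → ‖v‖ < 1 → ∑ j ∈ J, B j v * f j (Rf φ v) = 0) : False := by
  obtain ⟨T, hT⟩ : ∃ T : ℂ → (ℂ → ℂ) → Prop, T = fun z X =>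
    ∀ᶠ v in 𝓝 z, ∑ j ∈ J, B j v * f j (X v) = 0 := ⟨_, rfl⟩
  refine final_abs hr hφ hinj hlam hc hS (T := T) ?_ ?_ hs1 hsr ?_ ?_
  · intro u X Y hX hXY
    rw [hT] at hX ⊢
    filter_upwards [hX, hXY] with v h1 h2
    rw [← h2]
    exact h1
  · intro V X u u' hV hVp hVs hX hu hu' hTX
    rw [hT] at hTX ⊢
    have hd : DifferentiableOn ℂ (fun v => ∑ j ∈ J, B j v * f j (X v)) V := by
      refine DifferentiableOn.fun_sum fun j hj => ?_
      exact ((hB j hj).mono hVs).mul ((hf j hj).comp_differentiableOn hX)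
    have h1 := eq_on (g := fun _ => 0) hV hVp hd (differentiableOn_const _) hu hTX
    filter_upwards [hV.mem_nhds hu'] with v hv
    exact h1 hv
  · intro v hv1 hv2
    rw [hT]
    filter_upwards [(annulus_open s 1).mem_nhds (show v ∈ {u : ℂ | s < ‖u‖ ∧ ‖u‖ < 1} from
      ⟨hv1, hv2⟩)] with w hw
    exact hrel w hw.1 hw.2
  · intro P hP
    have hBan : ∀ j ∈ J, AnalyticOnNhd ℂ (B j) (ball 0 1) := fun j hj =>
      (hB j hj).analyticOnNhd isOpen_ball
    refine poor_of_unb (B := B) (fun j hj => hBan j hj P hP) ?_ hU ?_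
    · intro j hj h1
      obtain ⟨v, hv, hv0⟩ := hne j hj
      exact hv0 ((hBan j hj).eqOn_zero_of_preconnected_of_eventuallyEq_zero
        (convex_ball _ _).isPreconnected hP h1 hv)
    · intro z X hTX
      rw [hT] at hTX
      exact hTX.self_of_nhds

/-- the image of the disc is open, the circle goes to the boundary -/
theorem frontier_circle {φ : ℂ → ℂ} {r : ℝ} (hr : 1 < r) (hφ : DifferentiableOn ℂ φ (ball 0 r))
    (hinj : InjOn φ (ball 0 r)) :
    IsOpen (φ '' ball 0 1) ∧ (∀ w ∈ closedBall (0 : ℂ) 1, φ w ∈ closure (φ '' ball 0 1)) ∧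
    (∀ w : ℂ, ‖w‖ = 1 → φ w ∈ frontier (φ '' ball 0 1)) ∧
    ∀ z ∈ frontier (φ '' ball 0 1), ∃ w : ℂ, ‖w‖ = 1 ∧ φ w = z := by
  have hcont : ContinuousOn φ (closedBall 0 1) :=
    (hφ.continuousOn).mono (closedBall_subset_ball hr)
  have hopen : IsOpen (φ '' ball 0 1) := by
    rw [isOpen_iff_mem_nhds]
    rintro _ ⟨w, hw, rfl⟩
    have hw' : w ∈ ball (0 : ℂ) r := ball_subset_ball hr.le hw
    have h3 : AnalyticAt ℂ φ w := hφ.analyticAt (isOpen_ball.mem_nhds hw')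
    have h4 : deriv φ w ≠ 0 := Pool.Agent.Y245.SC.t_NZ φ r hφ hinj w hw'
    rw [← h3.hasStrictDerivAt.map_nhds_eq h4]
    exact image_mem_map (isOpen_ball.mem_nhds hw)
  have hclos : ∀ w ∈ closedBall (0 : ℂ) 1, φ w ∈ closure (φ '' ball 0 1) := by
    intro w hw
    have h3 : ContinuousWithinAt φ (ball 0 1) w := (hcont w hw).mono ball_subset_closedBall
    refine h3.mem_closure_image ?_
    rw [closure_ball _ one_ne_zero]
    exact hw
  refine ⟨hopen, hclos, ?_, ?_⟩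
  · intro w hw
    have hw1 : w ∈ closedBall (0 : ℂ) 1 := by
      rw [mem_closedBall_zero_iff, hw]
    refine ⟨hclos w hw1, ?_⟩
    rw [hopen.interior_eq]
    rintro ⟨w', hw', he⟩
    have h3 := hinj (ball_subset_ball hr.le hw') (closedBall_subset_ball hr hw1) he
    rw [← h3] at hw
    rw [mem_ball_zero_iff, hw] at hw'
    exact lt_irrefl _ hw'
  · intro z0 hz0
    have hcc : IsClosed (φ '' closedBall 0 1) :=
      ((isCompact_closedBall (0 : ℂ) 1).image_of_continuousOn hcont).isClosed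
    have h3 : z0 ∈ φ '' closedBall 0 1 :=
      closure_minimal (image_mono ball_subset_closedBall) hcc hz0.1
    obtain ⟨w0, hw0, rfl⟩ := h3
    refine ⟨w0, ?_, rfl⟩
    have h4 : w0 ∉ ball (0 : ℂ) 1 := by
      intro h5
      apply hz0.2
      rw [hopen.interior_eq]
      exact ⟨w0, h5, rfl⟩
    rw [mem_closedBall_zero_iff] at hw0
    rw [mem_ball_zero_iff, not_lt] at h4
    exact le_antisymm hw0 h4

/-- a larger disc -/
theorem larger_disc {φ : ℂ → ℂ} {r : ℝ} (hr : 1 < r) (hφ : DifferentiableOn ℂ φ (ball 0 r))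
    (hinj : InjOn φ (ball 0 r)) {U : Set ℂ} (hU : IsOpen U)
    (hΩU : closure (φ '' ball 0 1) ⊆ U) :
    ∃ r1 : ℝ, 1 < r1 ∧ r1 ≤ r ∧ ∀ w ∈ ball (0 : ℂ) r1, φ w ∈ U := by
  have hpre : IsOpen (ball 0 r ∩ φ ⁻¹' U) := hφ.continuousOn.isOpen_inter_preimage isOpen_ball hU
  have hsub : closedBall (0 : ℂ) 1 ⊆ ball 0 r ∩ φ ⁻¹' U := fun w hw =>
    ⟨closedBall_subset_ball hr hw, hΩU ((frontier_circle hr hφ hinj).2.1 w hw)⟩
  obtain ⟨δ, hδ, hδ'⟩ := (isCompact_closedBall (0 : ℂ) 1).exists_thickening_subset_open hpre hsub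
  rw [thickening_closedBall hδ zero_le_one] at hδ'
  refine ⟨min r (δ + 1), lt_min hr (by linarith), min_le_left _ _, fun w hw => ?_⟩
  exact (hδ' (ball_subset_ball (min_le_right _ _) hw)).2

/-- the value of the Schwarz function on the circle -/
theorem rf_circle (φ : ℂ → ℂ) {w : ℂ} (hw : ‖w‖ = 1) : Rf φ w = conj (φ w) := by
  unfold Rf
  have h4 : 1 / conj w = w := by
    have hw0 : conj w ≠ 0 := by
      rw [← norm_pos_iff, RCLike.norm_conj, hw]
      exact one_pos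
    rw [div_eq_iff hw0, Complex.mul_conj, Complex.normSq_eq_norm_sq, hw]
    norm_num
  rw [h4]

/-- a holomorphic function in an annulus that vanishes on an arc of the circle -/
theorem arc_zero {φ : ℂ → ℂ} {r r1 : ℝ} (hr : 1 < r) (hφ : DifferentiableOn ℂ φ (ball 0 r))
    (hinj : InjOn φ (ball 0 r)) (hr1 : 1 < r1) {V : Set ℂ} (hV : IsOpen V)
    (hVΩ : (frontier (φ '' ball 0 1) ∩ V).Nonempty) {Q : ℂ → ℂ}
    (hQd : DifferentiableOn ℂ Q {u : ℂ | r1⁻¹ < ‖u‖ ∧ ‖u‖ < r1})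
    (hQ1 : ∀ w : ℂ, ‖w‖ = 1 → φ w ∈ V → Q w = 0) :
    EqOn Q 0 {u : ℂ | r1⁻¹ < ‖u‖ ∧ ‖u‖ < r1} := by
  have hr10 : 0 < r1 := by linarith
  have hr1i : r1⁻¹ < 1 := inv_lt_one_of_one_lt₀ hr1
  obtain ⟨w0, hw0, hw0V⟩ : ∃ w0 : ℂ, ‖w0‖ = 1 ∧ φ w0 ∈ V := by
    obtain ⟨z0, hz0, hz0V⟩ := hVΩ
    obtain ⟨w0, hw0, rfl⟩ := (frontier_circle hr hφ hinj).2.2.2 z0 hz0
    exact ⟨w0, hw0, hz0V⟩
  have hone : w0 ∈ {u : ℂ | r1⁻¹ < ‖u‖ ∧ ‖u‖ < r1} := by
    show r1⁻¹ < ‖w0‖ ∧ ‖w0‖ < r1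
    rw [hw0]
    exact ⟨hr1i, hr1⟩
  refine (hQd.analyticOnNhd (annulus_open _ _)).eqOn_zero_of_preconnected_of_frequently_eq_zero
    (annulus_pre2 (inv_pos.2 hr10).le) hone ?_
  have hw00 : w0 ≠ 0 := by
    rw [← norm_pos_iff, hw0]
    exact one_pos
  have hc0 : Tendsto (fun t : ℝ => w0 * Complex.exp (t * Complex.I)) (𝓝 0) (𝓝 w0) := by
    have h3 : Continuous (fun t : ℝ => w0 * Complex.exp (t * Complex.I)) := by fun_prop
    have h4 := h3.tendsto 0
    simp only [Complex.ofReal_zero, zero_mul, Complex.exp_zero, mul_one] at h4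
    exact h4
  have hc1 : Tendsto (fun t : ℝ => w0 * Complex.exp (t * Complex.I)) (𝓝[≠] 0) (𝓝[≠] w0) := by
    rw [tendsto_nhdsWithin_iff]
    constructor
    · exact hc0.mono_left nhdsWithin_le_nhds
    · have h3 : ∀ᶠ t : ℝ in 𝓝[≠] 0, |t| < 1 := by
        apply Filter.Eventually.filter_mono nhdsWithin_le_nhds
        have h4 : Tendsto (fun x : ℝ => |x|) (𝓝 0) (𝓝 0) := by
          have := continuous_abs.tendsto (0 : ℝ)
          rwa [abs_zero] at this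
        exact h4.eventually (gt_mem_nhds one_pos)
      filter_upwards [h3, self_mem_nhdsWithin] with t ht1 ht0 h4
      have h5 : Complex.exp (t * Complex.I) = 1 := by
        have h6 : w0 * Complex.exp (t * Complex.I) = w0 * 1 := by
          rw [mul_one]
          exact h4
        exact mul_left_cancel₀ hw00 h6
      rw [Complex.exp_eq_one_iff] at h5
      obtain ⟨n, hn⟩ := h5
      have h6 : t = n * (2 * Real.pi) := by
        have h7 : (t : ℂ) = n * (2 * Real.pi) := by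
          apply mul_right_cancel₀ Complex.I_ne_zero
          rw [hn]
          ring
        exact_mod_cast h7
      have hn0 : n = 0 := by
        by_contra hn0
        have h8 : (1 : ℝ) ≤ |(n : ℝ)| := by
          have : 1 ≤ |n| := Int.one_le_abs hn0
          exact_mod_cast this
        have h9 := Real.pi_gt_three
        rw [h6, abs_mul, abs_of_pos (by positivity : (0 : ℝ) < 2 * Real.pi)] at ht1
        nlinarith
      rw [hn0] at h6
      exact ht0 (by simpa using h6)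
  refine hc1.frequently ?_
  refine Eventually.frequently ?_
  have hφw : ContinuousAt φ w0 := by
    refine (hφ.differentiableAt (isOpen_ball.mem_nhds ?_)).continuousAt
    rw [mem_ball_zero_iff, hw0]
    exact hr
  have h3 : ∀ᶠ t : ℝ in 𝓝 0, φ (w0 * Complex.exp (t * Complex.I)) ∈ V :=
    (hφw.tendsto.comp hc0).eventually (hV.mem_nhds hw0V)
  filter_upwards [nhdsWithin_le_nhds h3] with t ht
  refine hQ1 _ ?_ ht
  rw [norm_mul, Complex.norm_exp_ofReal_mul_I, hw0, mul_one]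

/-- the constant of a nontrivial solution is not zero -/
theorem c_ne_zero {φ : ℂ → ℂ} {r lam c : ℝ} {u : ℂ → ℝ} {G0 : ℂ → ℂ} (hr : 1 < r)
    (hφ : DifferentiableOn ℂ φ (ball 0 r)) (hinj : InjOn φ (ball 0 r)) (hlam : 0 < lam)
    (hS : Sol (φ '' ball 0 1) lam c u G0)
    (hu0 : ¬ (u =ᵐ[volume.restrict (φ '' ball 0 1)] 0)) : c ≠ 0 := by
  have hcont : ContinuousOn φ (closedBall 0 1) :=
    (hφ.continuousOn).mono (closedBall_subset_ball hr)
  have hb' : Bornology.IsBounded (φ '' ball 0 1) :=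
    ((isCompact_closedBall (0 : ℂ) 1).image_of_continuousOn hcont).isBounded.subset
      (image_mono ball_subset_closedBall)
  have hm' : MeasurableSet (φ '' ball 0 1) :=
    (isOpen_ball.measurableSet).image_of_continuousOn_injOn
      (hcont.mono ball_subset_closedBall) (hinj.mono (ball_subset_ball hr.le))
  exact hS.c_ne hb' hm' hlam hu0

end Pool.Agent.T9h43.SB
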